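import Mathlib
import Pool.Agent.Helper56.SKW.Defs

/-!
# Solvable Lie superalgebras
-/

namespace Pool.Agent.Helper54.SKW

open Module Pool.Agent.Helper56.SKW

variable {k L₀ L₁ : Type*} [Field k] [AddCommGroup L₀] [Module k L₀] [AddCommGroup L₁]
  [Module k L₁]

/-- The derived series of a Lie superalgebra `g`: the `n`-th term is the graded subspace
`(even part, odd part)`, starting with `g` itself, and the next term is the span of the brackets
of elements of the previous one. -/
def derivedSeries (g : LieSuper k L₀ L₁) : ℕ → Submodule k L₀ × Submodule k L₁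
  | 0 => (⊤, ⊤)
  | n + 1 =>
    (Submodule.map₂ g.b00 (derivedSeries g n).1 (derivedSeries g n).1 ⊔
      Submodule.map₂ g.b11 (derivedSeries g n).2 (derivedSeries g n).2,
    Submodule.map₂ g.b01 (derivedSeries g n).1 (derivedSeries g n).2)

/-- A Lie superalgebra is solvable if some term of its derived series is zero. -/
def IsSolvable (g : LieSuper k L₀ L₁) : Prop := ∃ n, derivedSeries g n = (⊥, ⊥)

end Pool.Agent.Helper54.SKW
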