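import Mathlib
import Pool.Agent.Helper54.SKW.Defs
import Pool.Agent.Helper56.SKW.ToAlg

/-!
# The derived series consists of ideals
-/

namespace Pool.Agent.Helper54.SKW

open Module Pool.Agent.Helper56.SKW

variable {k L₀ L₁ : Type*} [Field k] [AddCommGroup L₀] [Module k L₀] [AddCommGroup L₁]
  [Module k L₁]

theorem derived_ideal (h2 : (2 : k) ≠ 0) (g : LieSuper k L₀ L₁) (n : ℕ) :
    (∀ x, ∀ u ∈ (derivedSeries g n).1, g.b00 x u ∈ (derivedSeries g n).1) ∧
    (∀ x, ∀ v ∈ (derivedSeries g n).2, g.b01 x v ∈ (derivedSeries g n).2) ∧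
    (∀ u ∈ (derivedSeries g n).1, ∀ y, g.b01 u y ∈ (derivedSeries g n).2) ∧
    (∀ y, ∀ v ∈ (derivedSeries g n).2, g.b11 y v ∈ (derivedSeries g n).1) := by
  induction n with
  | zero => exact ⟨fun _ _ _ => trivial, fun _ _ _ => trivial, fun _ _ _ => trivial,
      fun _ _ _ => trivial⟩
  | succ n ih =>
    obtain ⟨ih1, ih2, ih3, ih4⟩ := ih
    have m00 : ∀ u ∈ (derivedSeries g n).1, ∀ u' ∈ (derivedSeries g n).1,
        g.b00 u u' ∈ (derivedSeries g (n + 1)).1 := fun u hu u' hu' =>
      Submodule.mem_sup_left (Submodule.apply_mem_map₂ _ hu hu')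
    have m11 : ∀ u ∈ (derivedSeries g n).2, ∀ u' ∈ (derivedSeries g n).2,
        g.b11 u u' ∈ (derivedSeries g (n + 1)).1 := fun u hu u' hu' =>
      Submodule.mem_sup_right (Submodule.apply_mem_map₂ _ hu hu')
    have m01 : ∀ u ∈ (derivedSeries g n).1, ∀ u' ∈ (derivedSeries g n).2,
        g.b01 u u' ∈ (derivedSeries g (n + 1)).2 := fun u hu u' hu' =>
      Submodule.apply_mem_map₂ _ hu hu'
    refine ⟨?_, ?_, ?_, ?_⟩
    · intro x
      have h : (derivedSeries g (n + 1)).1 ≤ (derivedSeries g (n + 1)).1.comap (g.b00 x) := by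
        refine sup_le (Submodule.map₂_le.2 ?_) (Submodule.map₂_le.2 ?_)
        · intro u hu u' hu'
          have e : g.b00 x (g.b00 u u') = g.b00 (g.b00 x u) u' + g.b00 u (g.b00 x u') := by
            rw [g.jac000]; abel
          rw [Submodule.mem_comap, e]
          exact Submodule.add_mem _ (m00 _ (ih1 x u hu) _ hu') (m00 _ hu _ (ih1 x u' hu'))
        · intro v hv v' hv'
          rw [Submodule.mem_comap, g.jac011]
          exact Submodule.add_mem _ (m11 _ (ih2 x v hv) _ hv') (m11 _ hv _ (ih2 x v' hv'))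
      exact fun u hu => h hu
    · intro x
      have h : (derivedSeries g (n + 1)).2 ≤ (derivedSeries g (n + 1)).2.comap (g.b01 x) := by
        refine Submodule.map₂_le.2 ?_
        intro u hu v hv
        have e : g.b01 x (g.b01 u v) = g.b01 (g.b00 x u) v + g.b01 u (g.b01 x v) := by
          rw [g.jac001]; abel
        rw [Submodule.mem_comap, e]
        exact Submodule.add_mem _ (m01 _ (ih1 x u hu) _ hv) (m01 _ hu _ (ih2 x v hv))
      exact fun u hu => h hu
    · intro u hu y
      have h : (derivedSeries g (n + 1)).1 ≤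
          (derivedSeries g (n + 1)).2.comap (g.b01.flip y) := by
        refine sup_le (Submodule.map₂_le.2 ?_) (Submodule.map₂_le.2 ?_)
        · intro u hu u' hu'
          rw [Submodule.mem_comap, LinearMap.flip_apply, g.jac001]
          exact Submodule.sub_mem _ (m01 _ hu _ (ih3 u' hu' y)) (m01 _ hu' _ (ih3 u hu y))
        · intro v hv v' hv'
          have e := cyc111 h2 g v v' y
          have e2 : g.b01 (g.b11 v v') y =
              -(g.b01 (g.b11 y v') v) - g.b01 (g.b11 y v) v' := by
            rw [g.symm11 y v', g.symm11 y v]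
            rw [add_assoc] at e
            rw [eq_neg_of_add_eq_zero_left e]
            abel
          rw [Submodule.mem_comap, LinearMap.flip_apply, e2]
          exact Submodule.sub_mem _ (Submodule.neg_mem _ (m01 _ (ih4 y v' hv') _ hv))
            (m01 _ (ih4 y v hv) _ hv')
      exact h hu
    · intro y
      have h : (derivedSeries g (n + 1)).2 ≤ (derivedSeries g (n + 1)).1.comap (g.b11 y) := by
        refine Submodule.map₂_le.2 ?_
        intro u hu v hv
        have e : g.b11 y (g.b01 u v) = g.b00 u (g.b11 y v) - g.b11 (g.b01 u y) v := by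
          rw [g.jac011]; abel
        rw [Submodule.mem_comap, e]
        exact Submodule.sub_mem _ (m00 _ hu _ (ih4 y v hv)) (m11 _ (ih3 u hu y) _ hv)
      exact fun u hu => h hu

end Pool.Agent.Helper54.SKW
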