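import Mathlib

/-!
# Super brackets of endomorphisms
-/

namespace Pool.Agent.Helper54.SKW

open Module

/-- The sign `(-1) ^ (i j)`. -/
def sg (i j : ZMod 2) : ℤ := if i = 1 ∧ j = 1 then -1 else 1

theorem z2 (i : ZMod 2) : i = 0 ∨ i = 1 := by
  fin_cases i
  · exact Or.inl rfl
  · exact Or.inr rfl

@[simp] theorem sg_zero_left (j : ZMod 2) : sg 0 j = 1 := by
  simp [sg]

@[simp] theorem sg_zero_right (i : ZMod 2) : sg i 0 = 1 := by
  simp [sg]

@[simp] theorem sg_one_one : sg 1 1 = -1 := by
  simp [sg]

@[simp] theorem z2_one_add_one : (1 : ZMod 2) + 1 = 0 := by decide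

theorem sg_comm (i j : ZMod 2) : sg i j = sg j i := by
  rcases z2 i with rfl | rfl <;> rcases z2 j with rfl | rfl <;> simp

theorem sg_sq (i j : ZMod 2) : sg i j * sg i j = 1 := by
  rcases z2 i with rfl | rfl <;> rcases z2 j with rfl | rfl <;> simp

variable {R : Type*} [Ring R]

/-- The super bracket of elements of degrees `i` and `j`. -/
def br (i j : ZMod 2) (S T : R) : R := S * T - sg i j • (T * S)

theorem br_add_left (i j : ZMod 2) (S S' T : R) : br i j (S + S') T = br i j S T + br i j S' T := by
  simp only [br, add_mul, mul_add, smul_add]; abel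

theorem br_add_right (i j : ZMod 2) (S T T' : R) : br i j S (T + T') = br i j S T + br i j S T' := by
  simp only [br, add_mul, mul_add, smul_add]; abel

@[simp] theorem br_zero_left (i j : ZMod 2) (T : R) : br i j 0 T = 0 := by simp [br]

@[simp] theorem br_zero_right (i j : ZMod 2) (T : R) : br i j T 0 = 0 := by simp [br]

theorem br_jacobi (i j l : ZMod 2) (x y z : R) :
    br (i + j) l (br i j x y) z =
      br i (j + l) x (br j l y z) - sg i j • br j (i + l) y (br i l x z) := by
  rcases z2 i with rfl | rfl <;> rcases z2 j with rfl | rfl <;> rcases z2 l with rfl | rfl <;>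
    simp [br] <;> noncomm_ring

theorem br_symm (i j : ZMod 2) (x y : R) : br i j x y = -(sg i j • br j i y x) := by
  rcases z2 i with rfl | rfl <;> rcases z2 j with rfl | rfl <;>
    simp [br]

/-- The Leibniz rule `[x, [y, z]] = [[x, y], z] ± [y, [x, z]]`. -/
theorem br_leib (i j l : ZMod 2) (x y z : R) :
    br i (j + l) x (br j l y z) =
      br (i + j) l (br i j x y) z + sg i j • br j (i + l) y (br i l x z) := by
  rw [br_jacobi]; abel

theorem br_mul (i j : ZMod 2) (x y : R) : x * y = br i j x y + sg i j • (y * x) := by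
  simp [br]

section Alg

variable {k : Type*} [Field k] [Algebra k R]

theorem br_smul_left (i j : ZMod 2) (c : k) (S T : R) : br i j (c • S) T = c • br i j S T := by
  simp only [br, smul_mul_assoc, mul_smul_comm, smul_sub]
  rw [smul_comm]

theorem br_smul_right (i j : ZMod 2) (c : k) (S T : R) : br i j S (c • T) = c • br i j S T := by
  simp only [br, smul_mul_assoc, mul_smul_comm, smul_sub]
  rw [smul_comm]

/-- Scalars (in even degree). -/
def Zs (k : Type*) (R : Type*) [Field k] [Ring R] [Algebra k R] (i : ZMod 2) : Submodule k R :=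
  if i = 0 then Submodule.span k {1} else ⊥

theorem mem_Zs_zero {T : R} : T ∈ Zs k R 0 ↔ ∃ c : k, c • (1 : R) = T := by
  simp [Zs, Submodule.mem_span_singleton]

theorem mem_Zs_one {T : R} : T ∈ Zs k R 1 ↔ T = 0 := by
  simp [Zs]

theorem Zs_cases {i : ZMod 2} {T : R} (h : T ∈ Zs k R i) :
    T = 0 ∨ (i = 0 ∧ ∃ c : k, c • (1 : R) = T) := by
  rcases z2 i with rfl | rfl
  · exact Or.inr ⟨rfl, mem_Zs_zero.1 h⟩
  · exact Or.inl (mem_Zs_one.1 h)

theorem br_Zs_left {i j : ZMod 2} {S : R} (h : S ∈ Zs k R i) (T : R) : br i j S T = 0 := by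
  rcases Zs_cases h with rfl | ⟨rfl, c, rfl⟩
  · simp
  · simp [br]

theorem br_Zs_right {i j : ZMod 2} {S : R} (h : S ∈ Zs k R j) (T : R) : br i j T S = 0 := by
  rcases Zs_cases h with rfl | ⟨rfl, c, rfl⟩
  · simp
  · simp [br]

/-- The `p`-th power of `ad x`. -/
theorem ad_pow_char [Nontrivial R] (p : ℕ) [Fact p.Prime] [CharP k p] (x b : R) :
    ((LinearMap.mulLeft k x - LinearMap.mulRight k x) ^ p) b = x ^ p * b - b * x ^ p := by
  have hc : CharP (Module.End k R) p :=
    charP_of_injective_algebraMap (algebraMap k (Module.End k R)).injective p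
  have hcomm : Commute (LinearMap.mulLeft k x) (LinearMap.mulRight k x) := by
    ext y
    simp [mul_assoc]
  rw [sub_pow_char_of_commute _ hcomm]
  simp

end Alg

end Pool.Agent.Helper54.SKW
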