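import Mathlib

/-!
# Modules over Weyl and Clifford algebras generated by a vacuum space
-/

namespace Pool.Agent.Helper54.SKW

open Module

variable {k V : Type*} [Field k] [AddCommGroup V] [Module k V]

theorem pow_comm_scalar {R : Type*} [Ring R] [Algebra k R] {X Y : R} {e : k}
    (h : X * Y = e • (Y * X)) (m : ℕ) : X ^ m * Y = e ^ m • (Y * X ^ m) := by
  induction m with
  | zero => simp
  | succ m ih =>
    rw [pow_succ, mul_assoc, h, mul_smul_comm, ← mul_assoc, ih, smul_mul_assoc, smul_smul,
      mul_assoc, ← pow_succ, pow_succ e, mul_comm]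

theorem comm_pow_scalar {R : Type*} [Ring R] [Algebra k R] {X Y : R} {e : k}
    (h : Y * X = e • (X * Y)) (m : ℕ) : Y * X ^ m = e ^ m • (X ^ m * Y) := by
  induction m with
  | zero => simp
  | succ m ih =>
    rw [pow_succ, ← mul_assoc, ih, smul_mul_assoc, mul_assoc, h, mul_smul_comm, smul_smul,
      ← mul_assoc, ← pow_succ, pow_succ e]

/-- The sum of the `X ^ m W`, `m < c`. -/
noncomputable def sumMap (c : ℕ) (X : Module.End k V) (W : Submodule k V) :
    (Fin c → W) →ₗ[k] V :=
  ∑ m : Fin c, (X ^ (m : ℕ)) ∘ₗ W.subtype ∘ₗ LinearMap.proj m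

theorem sumMap_apply (c : ℕ) (X : Module.End k V) (W : Submodule k V) (w : Fin c → W) :
    sumMap c X W w = ∑ m : Fin c, (X ^ (m : ℕ)) (w m : V) := by
  simp [sumMap]

theorem one_var [FiniteDimensional k V] (c : ℕ) (B X : Module.End k V) (W : Submodule k V)
    (κ : ℕ → k) (hκ : ∀ m, m + 1 < c → κ (m + 1) ≠ 0) (hB : ∀ w ∈ W, B w = 0)
    (hBX : ∀ m, m + 1 < c → ∀ w ∈ W, B ((X ^ (m + 1)) w) = κ (m + 1) • (X ^ m) w) :
    finrank k (LinearMap.range (sumMap c X W)) = c * finrank k W := by
  have key : ∀ n, n ≤ c → ∀ w : ℕ → V, (∀ m, w m ∈ W) →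
      ∑ m ∈ Finset.range n, (X ^ m) (w m) = 0 → ∀ m < n, w m = 0 := by
    intro n
    induction n with
    | zero => intro _ w _ _ m hm; exact absurd hm (by omega)
    | succ n ih =>
      intro hn w hw h
      have h1 : ∑ m ∈ Finset.range n, (X ^ m) (κ (m + 1) • w (m + 1)) = 0 := by
        have h2 := congrArg B h
        rw [map_sum, map_zero, Finset.sum_range_succ'] at h2
        simp only [pow_zero, Module.End.one_apply] at h2
        rw [hB _ (hw 0), add_zero] at h2
        rw [← h2]
        apply Finset.sum_congr rfl
        intro m hm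
        rw [hBX m (by have := Finset.mem_range.1 hm; omega) _ (hw _), map_smul]
      have h3 := ih (by omega) _ (fun m => W.smul_mem _ (hw (m + 1))) h1
      have h4 : ∀ m < n, w (m + 1) = 0 := fun m hm =>
        (smul_eq_zero.1 (h3 m hm)).resolve_left (hκ m (by omega))
      rw [Finset.sum_range_succ', Finset.sum_eq_zero, zero_add] at h
      · intro m hm
        cases m with
        | zero => simpa using h
        | succ m => exact h4 m (by omega)
      · intro m hm
        rw [h4 m (Finset.mem_range.1 hm), map_zero]
  have hinj : Function.Injective (sumMap c X W) := by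
    rw [injective_iff_map_eq_zero]
    intro w hw
    rw [sumMap_apply] at hw
    have h1 := key c le_rfl (fun m => if h : m < c then (w ⟨m, h⟩ : V) else 0) (by
      intro m
      by_cases h : m < c
      · simp [h]
      · simp [h]) (by
      rw [← hw, Finset.sum_range]
      apply Finset.sum_congr rfl
      intro m _
      simp)
    ext m
    have := h1 m m.2
    simpa using this
  rw [LinearMap.finrank_range_of_inj hinj]
  simp [Module.finrank_pi_fintype]

/-- Dimension of a module over a Weyl and Clifford algebra generated by a space `W` of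
vacuum vectors. -/
theorem ewc [FiniteDimensional k V] {ι : Type*} [DecidableEq ι] (X B : ι → Module.End k V)
    (c : ι → ℕ) (s : Finset ι) : ∀ W : Submodule k V,
    (∀ i ∈ s, X i ^ c i = 0) →
    (∀ i ∈ s, ∀ j ∈ s, i ≠ j → ∃ e : k, X i * X j = e • (X j * X i)) →
    (∀ i ∈ s, ∀ j ∈ s, i ≠ j → ∃ e : k, B i * X j = e • (X j * B i)) →
    (∀ i ∈ s, ∃ κ : ℕ → k, (∀ m, m + 1 < c i → κ (m + 1) ≠ 0) ∧ ∀ m, m + 1 < c i → ∀ w,
      B i w = 0 → B i ((X i ^ (m + 1)) w) = κ (m + 1) • (X i ^ m) w) →
    (∀ i ∈ s, ∀ w ∈ W, B i w = 0) →
    (∀ W' : Submodule k V, W ≤ W' → (∀ i ∈ s, ∀ w ∈ W', X i w ∈ W') → W' = ⊤) →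
    finrank k V = (∏ i ∈ s, c i) * finrank k W := by
  induction s using Finset.induction_on with
  | empty =>
    intro W _ _ _ _ _ hgen
    rw [hgen W le_rfl (by simp)]
    simp
  | insert a s ha ih =>
    intro W hX hXX hBX hone hW hgen
    obtain ⟨κ, hκ, hκ2⟩ := hone a (Finset.mem_insert_self a s)
    have h1 := one_var (c a) (B a) (X a) W κ hκ (hW a (Finset.mem_insert_self a s))
      (fun m hm w hw => hκ2 m hm w (hW a (Finset.mem_insert_self a s) w hw))
    have h2 := ih (LinearMap.range (sumMap (c a) (X a) W))
      (fun i hi => hX i (Finset.mem_insert_of_mem hi))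
      (fun i hi j hj => hXX i (Finset.mem_insert_of_mem hi) j (Finset.mem_insert_of_mem hj))
      (fun i hi j hj => hBX i (Finset.mem_insert_of_mem hi) j (Finset.mem_insert_of_mem hj))
      (fun i hi => hone i (Finset.mem_insert_of_mem hi)) ?_ ?_
    · rw [Finset.prod_insert ha, h2, h1]
      ring
    · rintro i hi _ ⟨w, rfl⟩
      rw [sumMap_apply, map_sum]
      apply Finset.sum_eq_zero
      intro m _
      have hia : i ≠ a := fun h => ha (h ▸ hi)
      obtain ⟨e, he⟩ := hBX i (Finset.mem_insert_of_mem hi) a (Finset.mem_insert_self a s) hia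
      have h3 := LinearMap.congr_fun (comm_pow_scalar he (m : ℕ)) (w m : V)
      simp only [Module.End.mul_apply, LinearMap.smul_apply] at h3
      rw [h3, hW i (Finset.mem_insert_of_mem hi) _ (w m).2, map_zero, smul_zero]
    · intro W' hW' hst
      let W'' : Submodule k V :=
        { carrier := {v | ∀ m : ℕ, (X a ^ m) v ∈ W'}
          add_mem' := by
            intro u v hu hv m
            rw [map_add]
            exact W'.add_mem (hu m) (hv m)
          zero_mem' := by
            intro m
            rw [map_zero]
            exact W'.zero_mem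
          smul_mem' := by
            intro c v hv m
            rw [map_smul]
            exact W'.smul_mem _ (hv m) }
      have h3 : W'' = ⊤ := by
        apply hgen
        · intro w hw m
          by_cases hm : m < c a
          · apply hW'
            refine ⟨fun j => if j = ⟨m, hm⟩ then ⟨w, hw⟩ else 0, ?_⟩
            rw [sumMap_apply, Finset.sum_eq_single ⟨m, hm⟩]
            · simp
            · intro j _ hj
              simp [hj]
            · intro h
              exact absurd (Finset.mem_univ _) h
          · have h4 : X a ^ m = 0 := by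
              rw [show m = c a + (m - c a) by omega, pow_add, hX a (Finset.mem_insert_self a s),
                zero_mul]
            rw [h4]
            exact W'.zero_mem
        · intro i hi w hw
          rcases Finset.mem_insert.1 hi with rfl | hi'
          · intro m
            rw [← Module.End.mul_apply, ← pow_succ]
            exact hw (m + 1)
          · intro m
            have hia : a ≠ i := fun h => ha (h ▸ hi')
            obtain ⟨e, he⟩ := hXX a (Finset.mem_insert_self a s) i hi hia
            have h3 := LinearMap.congr_fun (pow_comm_scalar he m) w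
            simp only [Module.End.mul_apply, LinearMap.smul_apply] at h3
            rw [h3]
            exact W'.smul_mem _ (hst i hi' _ (hw m))
      rw [eq_top_iff]
      intro v _
      have h4 : v ∈ W'' := h3 ▸ trivial
      simpa using h4 0

end Pool.Agent.Helper54.SKW
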