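import Mathlib

/-!
# Graded models of filtered operators
-/

namespace Pool.Agent.Helper54.SKW

open Module

variable {k V : Type*} [Field k] [AddCommGroup V] [Module k V]

/-- Operators of filtration degree `d`. -/
def Dg (F : ℤ → Submodule k V) (d : ℤ) : Submodule k (Module.End k V) where
  carrier := {T | ∀ n, ∀ v ∈ F n, T v ∈ F (n + d)}
  add_mem' := fun ha hb n v hv => (F _).add_mem (ha n v hv) (hb n v hv)
  zero_mem' := fun _ _ _ => (F _).zero_mem
  smul_mem' := fun c _ ha n v hv => (F _).smul_mem c (ha n v hv)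

theorem mem_Dg {F : ℤ → Submodule k V} {d : ℤ} {T : Module.End k V} :
    T ∈ Dg F d ↔ ∀ n, ∀ v ∈ F n, T v ∈ F (n + d) := Iff.rfl

theorem Dg_mul {F : ℤ → Submodule k V} {d e : ℤ} {S T : Module.End k V} (hS : S ∈ Dg F d)
    (hT : T ∈ Dg F e) : S * T ∈ Dg F (d + e) := by
  intro n v hv
  have h := hS _ _ (hT n v hv)
  rw [Module.End.mul_apply]
  have e1 : n + (d + e) = n + e + d := by ring
  rw [e1]
  exact h

theorem Dg_mono {F : ℤ → Submodule k V} (hF : Monotone F) {d e : ℤ} (hde : d ≤ e)
    {T : Module.End k V} (hT : T ∈ Dg F d) : T ∈ Dg F e :=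
  fun n v hv => hF (by omega) (hT n v hv)

theorem Dg_one (F : ℤ → Submodule k V) : (1 : Module.End k V) ∈ Dg F 0 := by
  intro n v hv
  simpa using hv

/-- Graded model of the algebra of filtered operators. -/
theorem exists_graded_model (F : ℤ → Submodule k V) (hF : Monotone F) (h0 : F 0 = ⊥)
    (N : ℕ) (hN : F N = ⊤) :
    ∃ H : ℤ → Submodule k (Module.End k V),
      (∀ d e S T, S ∈ H d → T ∈ H e → S * T ∈ H (d + e)) ∧ 1 ∈ H 0 ∧
      (∀ d T, T ∈ H d → T ∈ Dg F (d - 1) → T = 0) ∧
      (∀ d T, T ∈ Dg F d → ∃ T' ∈ H d, T - T' ∈ Dg F (d - 1)) := by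
  have hρ : ∀ n : ℤ, ∃ ρ : Module.End k V, (∀ v, ρ v ∈ F n) ∧ ∀ v ∈ F n, ρ v = v := by
    intro n
    obtain ⟨g, hg⟩ := LinearMap.exists_leftInverse_of_injective (F n).subtype
      (Submodule.ker_subtype _)
    refine ⟨(F n).subtype ∘ₗ g, fun v => (g v).2, fun v hv => ?_⟩
    have := LinearMap.congr_fun hg ⟨v, hv⟩
    simp only [LinearMap.comp_apply, Submodule.subtype_apply, LinearMap.id_apply] at this ⊢
    rw [this]
  choose ρ hρ1 hρ2 using hρ
  let q' : ℕ → Module.End k V := fun m => Nat.rec 1 (fun m f => ρ (N - (m + 1 : ℕ)) * f) m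
  have q0 : q' 0 = 1 := rfl
  have qs : ∀ m, q' (m + 1) = ρ (N - (m + 1 : ℕ)) * q' m := fun m => rfl
  have hi : ∀ (m : ℕ) v, q' m v ∈ F (N - m) := by
    intro m v
    cases m with
    | zero => simp [hN]
    | succ m => rw [qs]; exact hρ1 _ _
  have hii : ∀ m : ℕ, ∀ v ∈ F (N - m), q' m v = v := by
    intro m
    induction m with
    | zero => intro v _; simp [q0]
    | succ m ih =>
      intro v hv
      rw [qs, Module.End.mul_apply, ih v (hF (by push_cast; omega) hv), hρ2 _ _ hv]
  have hiii : ∀ l m, ∀ v, q' (l + m) (q' l v) = q' (l + m) v := by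
    intro l m
    induction m with
    | zero => intro v; exact hii l _ (hi l v)
    | succ m ih =>
      intro v
      rw [← add_assoc, qs, Module.End.mul_apply, ih, Module.End.mul_apply]
  let q : ℤ → Module.End k V := fun n => q' (N - n).toNat
  have qi : ∀ n v, q n v ∈ F n := by
    intro n v
    by_cases h : n ≤ N
    · have := hi (N - n).toNat v
      have e : (N : ℤ) - ((N - n).toNat : ℤ) = n := by omega
      rw [e] at this
      exact this
    · have : F n = ⊤ := top_le_iff.1 (hN ▸ hF (by omega))
      rw [this]; trivial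
  have qii : ∀ n, ∀ v ∈ F n, q n v = v := by
    intro n v hv
    by_cases h : n ≤ N
    · apply hii
      have e : (N : ℤ) - ((N - n).toNat : ℤ) = n := by omega
      rw [e]
      exact hv
    · have e : (N - n).toNat = 0 := by omega
      simp only [q, e, q0, Module.End.one_apply]
  have qiii : ∀ n m, n ≤ m → ∀ v, q n (q m v) = q n v := by
    intro n m hnm v
    obtain ⟨l, hl⟩ : ∃ l, (N - n).toNat = (N - m).toNat + l := ⟨(N - n).toNat - (N - m).toNat,
      by omega⟩
    simp only [q, hl]
    exact hiii _ _ _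
  have qiv : ∀ n m, n ≤ m → ∀ v, q m (q n v) = q n v := fun n m hnm v =>
    qii _ _ (hF hnm (qi n v))
  have hbot : ∀ n : ℤ, n ≤ 0 → F n = ⊥ := fun n hn => le_bot_iff.1 (h0 ▸ hF hn)
  have htop : ∀ n : ℤ, (N : ℤ) ≤ n → F n = ⊤ := fun n hn => top_le_iff.1 (hN ▸ hF hn)
  have qle : ∀ n : ℤ, n ≤ 0 → q n = 0 := by
    intro n hn
    ext v
    have := qi n v
    rw [hbot n hn] at this
    exact (Submodule.mem_bot k).1 this
  have qge : ∀ n : ℤ, (N : ℤ) ≤ n → q n = 1 := by
    intro n hn
    ext v
    exact qii n v (by rw [htop n hn]; trivial)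
  let P : ℤ → Module.End k V := fun n => q (n + 1) - q n
  have Pa : ∀ n, ∀ v ∈ F n, P n v = 0 := by
    intro n v hv
    simp only [P, LinearMap.sub_apply]
    rw [qii _ _ hv, qii _ _ (hF (by omega) hv), sub_self]
  have Pb : ∀ n v, P n v ∈ F (n + 1) := by
    intro n v
    simp only [P, LinearMap.sub_apply]
    exact (F _).sub_mem (qi _ _) (hF (by omega) (qi _ _))
  have Pc : ∀ n v, P n (P n v) = P n v := by
    intro n v
    simp only [P, LinearMap.sub_apply, map_sub]
    rw [qiii _ _ le_rfl, qiii n (n + 1) (by omega), qiv n (n + 1) (by omega), qiii _ _ le_rfl]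
    abel
  have Pd : ∀ n m, n ≠ m → ∀ v, P n (P m v) = 0 := by
    intro n m hnm v
    rcases lt_or_gt_of_ne hnm with h | h
    · simp only [P, LinearMap.sub_apply, map_sub]
      rw [qiii (n + 1) (m + 1) (by omega), qiii (n + 1) m (by omega), qiii n (m + 1) (by omega),
        qiii n m (by omega)]
      abel
    · exact Pa _ _ (hF (by omega) (Pb m v))
  have Pe : ∀ v, v = ∑ m ∈ Finset.range N, P (m : ℤ) v := by
    intro v
    have h1 := Finset.sum_range_sub (fun m : ℕ => q (m : ℤ) v) N
    have h2 : ∑ m ∈ Finset.range N, P (m : ℤ) v = q (N : ℤ) v - q ((0 : ℕ) : ℤ) v := by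
      rw [← h1]
      apply Finset.sum_congr rfl
      intro m _
      simp only [P, LinearMap.sub_apply]
      push_cast
      rfl
    rw [h2, Nat.cast_zero]
    rw [qge N le_rfl, qle 0 le_rfl]
    simp
  have Pf : ∀ n : ℤ, (n < 0 ∨ (N : ℤ) ≤ n) → P n = 0 := by
    rintro n (h | h)
    · simp only [P]; rw [qle _ (by omega), qle _ (by omega), sub_self]
    · simp only [P]; rw [qge _ (by omega), qge _ (by omega), sub_self]
  let H : ℤ → Submodule k (Module.End k V) := fun d =>
    { carrier := {T | ∀ n v, T (P n v) = P (n + d) (T v)}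
      add_mem' := by
        intro a b ha hb n v
        simp only [LinearMap.add_apply, map_add]
        rw [ha, hb]
      zero_mem' := by intro n v; simp
      smul_mem' := by
        intro c a ha n v
        simp only [LinearMap.smul_apply, map_smul]
        rw [ha] }
  refine ⟨H, ?_, ?_, ?_, ?_⟩
  · intro d e S T hS hT n v
    rw [Module.End.mul_apply, hT, hS, Module.End.mul_apply]
    congr 2
    ring
  · intro n v
    simp
  · intro d T hT hTd
    ext v
    rw [Pe v, map_sum, LinearMap.zero_apply]
    apply Finset.sum_eq_zero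
    intro m _
    rw [← Pc, hT]
    apply Pa
    have := hTd _ _ (Pb (m : ℤ) v)
    have e : (m : ℤ) + 1 + (d - 1) = m + d := by ring
    rw [e] at this
    exact this
  · intro d T hT
    refine ⟨∑ m ∈ Finset.range N, P ((m : ℤ) + d) * T * P (m : ℤ), ?_, ?_⟩
    · intro n v
      simp only [LinearMap.sum_apply, Module.End.mul_apply, map_sum]
      by_cases hn : 0 ≤ n ∧ n < N
      · obtain ⟨n, rfl⟩ := Int.eq_ofNat_of_zero_le hn.1
        rw [Finset.sum_eq_single n, Finset.sum_eq_single n]
        · rw [Pc, Pc]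
        · intro m _ hmn
          exact Pd _ _ (by omega) _
        · intro h
          exact absurd (Finset.mem_range.2 (by omega)) h
        · intro m _ hmn
          rw [Pd (m : ℤ) n (by omega), map_zero, map_zero]
        · intro h
          exact absurd (Finset.mem_range.2 (by omega)) h
      · have hPn : P n = 0 := Pf n (by omega)
        rw [Finset.sum_eq_zero, Finset.sum_eq_zero]
        · intro m hm
          have hm' := Finset.mem_range.1 hm
          exact Pd _ _ (by omega) _
        · intro m hm
          simp [hPn]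
    · intro n v hv
      rw [LinearMap.sub_apply]
      nth_rewrite 1 [Pe v]
      simp only [map_sum, LinearMap.sum_apply, Module.End.mul_apply]
      rw [← Finset.sum_sub_distrib]
      apply Submodule.sum_mem
      intro m _
      by_cases hmn : n ≤ (m : ℤ)
      · rw [Pa m v (hF hmn hv)]
        simp
      · have hw : T (P m v) ∈ F ((m : ℤ) + d + 1) := by
          have := hT _ _ (Pb (m : ℤ) v)
          have e : (m : ℤ) + 1 + d = m + d + 1 := by ring
          rw [e] at this
          exact this
        have h2 : T (P m v) - P ((m : ℤ) + d) (T (P m v)) = q ((m : ℤ) + d) (T (P m v)) := by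
          simp only [P, LinearMap.sub_apply]
          have := qii _ _ hw
          simp only [P, LinearMap.sub_apply] at this
          rw [this]
          abel
        rw [h2]
        exact hF (by omega) (qi _ _)

end Pool.Agent.Helper54.SKW
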