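import Mathlib
import Pool.Agent.Helper54.SKW.Base
import Pool.Agent.Helper54.SKW.Hat
import Pool.Agent.Helper54.SKW.Ewc

/-!
# Dimension of a filtered module over a filtered Weyl and Clifford algebra
-/

namespace Pool.Agent.Helper54.SKW

open Module

variable {k V : Type*} [Field k] [AddCommGroup V] [Module k V]

theorem filt_dim [FiniteDimensional k V] (p : ℕ) [hp : Fact p.Prime] [CharP k p]
    {ι : Type*} [DecidableEq ι] [Fintype ι]
    (F : ℤ → Submodule k V) (hF : Monotone F) (h0 : F 0 = ⊥) (N : ℕ) (hN : F N = ⊤)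
    (X B : ι → Module.End k V) (par : ι → ZMod 2)
    (hX : ∀ i, X i ∈ Dg F 1) (hB : ∀ i, B i ∈ Dg F (-1))
    (hXX : ∀ i j, br (par i) (par j) (X i) (X j) ∈ Dg F 1)
    (hBX : ∀ i j, br (par i) (par j) (B i) (X j) - (if i = j then 1 else 0) ∈ Dg F (-1))
    (hpow : ∀ i, X i ^ (if par i = 0 then p else 2) ∈ Dg F 1)
    (gen : ∀ n : ℤ, 1 ≤ n → ∀ W : Submodule k V, F n ≤ W → (∀ i, ∀ v ∈ F n, X i v ∈ W) →
      F (n + 1) ≤ W) :
    finrank k V = (∏ i, (if par i = 0 then p else 2)) * finrank k (F 1) := by
  classical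
  obtain ⟨H, hmul, hone, hzero, hlift⟩ := exists_graded_model F hF h0 N hN
  choose Xh hXh1 hXh2 using fun i => hlift 1 (X i) (hX i)
  choose Bh hBh1 hBh2 using fun i => hlift (-1) (B i) (hB i)
  have e11 : (1 : ℤ) - 1 = 0 := by norm_num
  have em1 : (-1 : ℤ) - 1 = -2 := by norm_num
  simp only [e11] at hXh2
  simp only [em1] at hBh2
  have hXhD : ∀ i, Xh i ∈ Dg F 1 := by
    intro i
    have : Xh i = X i - (X i - Xh i) := by abel
    rw [this]
    exact (Dg F 1).sub_mem (hX i) (Dg_mono hF (by norm_num) (hXh2 i))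
  have hBhD : ∀ i, Bh i ∈ Dg F (-1) := by
    intro i
    have : Bh i = B i - (B i - Bh i) := by abel
    rw [this]
    exact (Dg F (-1)).sub_mem (hB i) (Dg_mono hF (by norm_num) (hBh2 i))
  -- the hat relations
  have rXX : ∀ i j, br (par i) (par j) (Xh i) (Xh j) = 0 := by
    intro i j
    apply hzero 2
    · exact (H 2).sub_mem (hmul 1 1 _ _ (hXh1 i) (hXh1 j))
        ((H 2).toAddSubgroup.zsmul_mem (hmul 1 1 _ _ (hXh1 j) (hXh1 i)) _)
    · have h1 : ∀ i j, X i * X j - Xh i * Xh j ∈ Dg F 1 := by
        intro i j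
        have : X i * X j - Xh i * Xh j = (X i - Xh i) * X j + Xh i * (X j - Xh j) := by
          noncomm_ring
        rw [this]
        exact (Dg F 1).add_mem (Dg_mul (d := 0) (e := 1) (hXh2 i) (hX j))
          (Dg_mul (d := 1) (e := 0) (hXhD i) (hXh2 j))
      have h2 : br (par i) (par j) (Xh i) (Xh j) = br (par i) (par j) (X i) (X j) -
          (X i * X j - Xh i * Xh j) + sg (par i) (par j) • (X j * X i - Xh j * Xh i) := by
        simp only [br, smul_sub]; abel
      rw [h2]
      exact (Dg F 1).add_mem ((Dg F 1).sub_mem (hXX i j) (h1 i j))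
        ((Dg F 1).toAddSubgroup.zsmul_mem (h1 j i) _)
  have rBX : ∀ i j, br (par i) (par j) (Bh i) (Xh j) = if i = j then 1 else 0 := by
    intro i j
    rw [← sub_eq_zero]
    have hH : (if i = j then (1 : Module.End k V) else 0) ∈ H 0 := by
      split_ifs
      · exact hone
      · exact (H 0).zero_mem
    apply hzero 0
    · refine (H 0).sub_mem ((H 0).sub_mem ?_ ((H 0).toAddSubgroup.zsmul_mem ?_ _)) hH
      · exact hmul (-1) 1 _ _ (hBh1 i) (hXh1 j)
      · exact hmul 1 (-1) _ _ (hXh1 j) (hBh1 i)
    · have h1 : B i * X j - Bh i * Xh j ∈ Dg F (-1) := by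
        have : B i * X j - Bh i * Xh j = (B i - Bh i) * X j + Bh i * (X j - Xh j) := by
          noncomm_ring
        rw [this]
        exact (Dg F (-1)).add_mem (Dg_mul (d := -2) (e := 1) (hBh2 i) (hX j))
          (Dg_mul (d := -1) (e := 0) (hBhD i) (hXh2 j))
      have h1' : X j * B i - Xh j * Bh i ∈ Dg F (-1) := by
        have : X j * B i - Xh j * Bh i = (X j - Xh j) * B i + Xh j * (B i - Bh i) := by
          noncomm_ring
        rw [this]
        exact (Dg F (-1)).add_mem (Dg_mul (d := 0) (e := -1) (hXh2 j) (hB i))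
          (Dg_mul (d := 1) (e := -2) (hXhD j) (hBh2 i))
      have h2 : br (par i) (par j) (Bh i) (Xh j) - (if i = j then 1 else 0) =
          (br (par i) (par j) (B i) (X j) - (if i = j then 1 else 0)) -
          (B i * X j - Bh i * Xh j) + sg (par i) (par j) • (X j * B i - Xh j * Bh i) := by
        simp only [br, smul_sub]; abel
      rw [h2]
      exact (Dg F (-1)).add_mem ((Dg F (-1)).sub_mem (hBX i j) h1)
        ((Dg F (-1)).toAddSubgroup.zsmul_mem h1' _)
  have hpowH : ∀ i (m : ℕ), Xh i ^ m ∈ H m := by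
    intro i m
    induction m with
    | zero => simpa using hone
    | succ m ih =>
      rw [pow_succ]
      have := hmul _ _ _ _ ih (hXh1 i)
      push_cast
      exact this
  have hpowD : ∀ i (m : ℕ), Xh i ^ m ∈ Dg F m := by
    intro i m
    induction m with
    | zero => simpa using Dg_one F
    | succ m ih =>
      rw [pow_succ]
      have := Dg_mul ih (hXhD i)
      push_cast
      exact this
  have hpowd : ∀ i (m : ℕ), X i ^ m - Xh i ^ m ∈ Dg F ((m : ℤ) - 1) := by
    intro i m
    induction m with
    | zero => simp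
    | succ m ih =>
      have h1 : X i ^ (m + 1) - Xh i ^ (m + 1) =
          (X i ^ m - Xh i ^ m) * X i + Xh i ^ m * (X i - Xh i) := by
        rw [pow_succ, pow_succ]; noncomm_ring
      have h2 := Dg_mul ih (hX i)
      have h3 := Dg_mul (hpowD i m) (hXh2 i)
      have e2 : (m : ℤ) - 1 + 1 = ((m + 1 : ℕ) : ℤ) - 1 := by push_cast; ring
      have e3 : (m : ℤ) + 0 = ((m + 1 : ℕ) : ℤ) - 1 := by push_cast; ring
      rw [e2] at h2
      rw [e3] at h3
      rw [h1]
      exact (Dg F _).add_mem h2 h3
  have hc2 : ∀ i, 2 ≤ (if par i = 0 then p else 2) := by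
    intro i
    split_ifs
    · exact hp.out.two_le
    · exact le_rfl
  have rpow : ∀ i, Xh i ^ (if par i = 0 then p else 2) = 0 := by
    intro i
    apply hzero _ _ (hpowH i _)
    have h1 : Xh i ^ (if par i = 0 then p else 2) = X i ^ (if par i = 0 then p else 2) -
      (X i ^ (if par i = 0 then p else 2) - Xh i ^ (if par i = 0 then p else 2)) := by abel
    rw [h1]
    refine (Dg F _).sub_mem (Dg_mono hF ?_ (hpow i)) (hpowd i _)
    have := hc2 i
    omega
  have hsgk : ∀ i j, ∀ T : Module.End k V,
      sg i j • T = ((sg i j : ℤ) : k) • T := by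
    intro i j T
    rw [Int.cast_smul_eq_zsmul]
  refine ewc Xh Bh (fun i => if par i = 0 then p else 2) Finset.univ (F 1)
    (fun i _ => rpow i) ?_ ?_ ?_ ?_ ?_
  · intro i _ j _ _
    refine ⟨((sg (par i) (par j) : ℤ) : k), ?_⟩
    have := rXX i j
    rw [br, sub_eq_zero] at this
    rw [this, hsgk]
  · intro i _ j _ hij
    refine ⟨((sg (par i) (par j) : ℤ) : k), ?_⟩
    have := rBX i j
    rw [if_neg hij, br, sub_eq_zero] at this
    rw [this, hsgk]
  · intro i _
    refine ⟨fun m => (m : k), ?_, ?_⟩
    · intro m hm h0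
      rw [CharP.cast_eq_zero_iff k p] at h0
      have := Nat.le_of_dvd (by omega) h0
      split_ifs at hm
      · omega
      · have := hp.out.two_le; omega
    · intro m hm w hw
      have h1 := rBX i i
      rw [if_pos rfl] at h1
      by_cases hpar : par i = 0
      · rw [hpar] at h1
        simp only [br, sg_zero_left, one_smul] at h1
        have h2 : ∀ m : ℕ, Bh i * Xh i ^ (m + 1) =
            Xh i ^ (m + 1) * Bh i + ((m + 1 : ℕ) : k) • Xh i ^ m := by
          intro m
          induction m with
          | zero =>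
            simp only [zero_add, pow_one, Nat.cast_one, one_smul, pow_zero]
            rw [← h1]; abel
          | succ m ih =>
            have h3 : Bh i * Xh i = Xh i * Bh i + 1 := by rw [← h1]; abel
            have e4 : Xh i ^ (m + 1) * Xh i = Xh i ^ (m + 1 + 1) := (pow_succ _ _).symm
            have e5 : Xh i ^ m * Xh i = Xh i ^ (m + 1) := (pow_succ _ _).symm
            calc Bh i * Xh i ^ (m + 1 + 1) = (Bh i * Xh i ^ (m + 1)) * Xh i := by
                  rw [← e4, mul_assoc]
              _ = Xh i ^ (m + 1) * (Bh i * Xh i) + ((m + 1 : ℕ) : k) • (Xh i ^ m * Xh i) := by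
                  rw [ih, add_mul, mul_assoc, smul_mul_assoc]
              _ = Xh i ^ (m + 1 + 1) * Bh i + ((m + 1 + 1 : ℕ) : k) • Xh i ^ (m + 1) := by
                  rw [h3, mul_add, mul_one, ← mul_assoc, e4, e5]
                  push_cast
                  module
        have h3 := LinearMap.congr_fun (h2 m) w
        simpa [hw] using h3
      · rw [if_neg hpar] at hm
        have hm0 : m = 0 := by omega
        subst hm0
        have hpar1 : par i = 1 := (z2 (par i)).resolve_left hpar
        rw [hpar1] at h1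
        simp only [br, sg_one_one] at h1
        have h3 := LinearMap.congr_fun h1 w
        simpa [hw] using h3
  · intro i _ w hw
    have h1 := hBhD i 1 w hw
    have e1 : (1 : ℤ) + (-1) = 0 := by norm_num
    rw [e1, h0] at h1
    exact (Submodule.mem_bot k).1 h1
  · intro W' hW' hst
    have h1 : ∀ n : ℕ, F (n + 1 : ℕ) ≤ W' := by
      intro n
      induction n with
      | zero => simpa using hW'
      | succ n ih =>
        have h2 := gen ((n + 1 : ℕ) : ℤ) (by push_cast; omega) W' ih (by
          intro i v hv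
          have h3 : X i v = (X i - Xh i) v + Xh i v := by simp
          rw [h3]
          refine W'.add_mem (ih ?_) (hst i (Finset.mem_univ i) v (ih hv))
          have := hXh2 i _ v hv
          rwa [add_zero] at this)
        push_cast at h2 ⊢
        exact h2
    rw [eq_top_iff, ← hN]
    refine le_trans (hF ?_) (h1 N)
    push_cast
    omega

end Pool.Agent.Helper54.SKW
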