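import Mathlib

/-!
# Ranks of bilinear forms on subspaces
-/

namespace Pool.Agent.Helper54.SKW

open Module

variable {k E : Type*} [Field k] [AddCommGroup E] [Module k E]

/-- The rank of the restriction of a bilinear form to a subspace. -/
noncomputable def rk (φ : E →ₗ[k] E →ₗ[k] k) (A : Submodule k E) : ℕ :=
  finrank k (LinearMap.range (φ.domRestrict₁₂ A A))

theorem rk_add_ker [FiniteDimensional k E] (φ : E →ₗ[k] E →ₗ[k] k) (A : Submodule k E) :
    rk φ A + finrank k (LinearMap.ker (φ.domRestrict₁₂ A A)) = finrank k A :=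
  LinearMap.finrank_range_add_finrank_ker _

theorem rk_lemma [FiniteDimensional k E] (φ : E →ₗ[k] E →ₗ[k] k) (A I H : Submodule k E)
    (hrefl : ∀ x ∈ A, ∀ y ∈ A, φ x y = 0 → φ y x = 0) (hIH : I ≤ H)
    (hH : ∀ x, x ∈ H ↔ x ∈ A ∧ ∀ b ∈ I, φ b x = 0) :
    rk φ A + 2 * finrank k H = 2 * finrank k A + rk φ H := by
  have hHA : H ≤ A := fun x hx => ((hH x).1 hx).1
  let B : LinearMap.BilinForm k A := φ.domRestrict₁₂ A A
  have hB : ∀ x y : A, B x y = φ x y := fun x y => rfl
  have h1 := LinearMap.BilinForm.finrank_add_finrank_orthogonal' (B := B) (H.comap A.subtype)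
  have hle : LinearMap.ker B ≤ H.comap A.subtype := by
    intro x hx
    rw [Submodule.mem_comap, Submodule.subtype_apply, hH]
    refine ⟨x.2, fun b hb => ?_⟩
    have h2 := LinearMap.congr_fun (LinearMap.mem_ker.1 hx) ⟨b, hHA (hIH hb)⟩
    exact hrefl _ x.2 _ (hHA (hIH hb)) h2
  have e1 : finrank k ↥(H.comap A.subtype) = finrank k H :=
    (Submodule.comapSubtypeEquivOfLe hHA).finrank_eq
  have e2 : finrank k ↥(H.comap A.subtype ⊓ LinearMap.ker B) = finrank k (LinearMap.ker B) := by
    rw [inf_eq_right.2 hle]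
  have e3 : finrank k ↥(LinearMap.BilinForm.orthogonal B (H.comap A.subtype)) =
      finrank k (LinearMap.ker (φ.domRestrict₁₂ H H)) := by
    rw [← Submodule.finrank_map_subtype_eq A (LinearMap.BilinForm.orthogonal B (H.comap A.subtype)),
      ← Submodule.finrank_map_subtype_eq H (LinearMap.ker (φ.domRestrict₁₂ H H))]
    suffices hh : (LinearMap.BilinForm.orthogonal B (H.comap A.subtype)).map A.subtype =
        (LinearMap.ker (φ.domRestrict₁₂ H H)).map H.subtype by rw [hh]
    ext x
    simp only [Submodule.mem_map, LinearMap.BilinForm.mem_orthogonal_iff, Submodule.mem_comap,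
      Submodule.subtype_apply, LinearMap.mem_ker, Subtype.exists, exists_and_right, exists_eq_right]
    constructor
    · rintro ⟨hxA, hx⟩
      have hxH : x ∈ H := by
        rw [hH]
        refine ⟨hxA, fun b hb => ?_⟩
        have := hx ⟨b, hHA (hIH hb)⟩ (hIH hb)
        rwa [hB] at this
      refine ⟨hxH, ?_⟩
      ext y
      have := hx ⟨y, hHA y.2⟩ y.2
      rw [hB] at this
      exact hrefl _ (hHA y.2) _ hxA this
    · rintro ⟨hxH, hx⟩
      refine ⟨hHA hxH, fun y hy => ?_⟩
      have := LinearMap.congr_fun hx ⟨y, hy⟩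
      rw [hB]
      exact hrefl _ (hHA hxH) _ (hHA hy) this
  have h3 := rk_add_ker φ A
  have h4 := rk_add_ker φ H
  have h5 : finrank k (LinearMap.ker B) =
    finrank k (LinearMap.ker (φ.domRestrict₁₂ A A)) := rfl
  have h6 : finrank k ↥(H.comap A.subtype ⊓ LinearMap.ker B) =
    finrank k (LinearMap.ker B) := e2
  rw [e1, e3, h6] at h1
  omega

theorem finrank_range_pullback {M M' : Type*} [AddCommGroup M] [Module k M] [AddCommGroup M']
    [Module k M'] (φ : M →ₗ[k] M →ₗ[k] k) (ψ : M' →ₗ[k] M' →ₗ[k] k) (g : M →ₗ[k] M')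
    (hφ : ∀ x y, φ x y = ψ (g x) (g y))
    (hs : ∀ z, ∃ x, (∀ w, ψ z w = ψ (g x) w) ∧ (∀ w, ψ w z = ψ w (g x))) :
    finrank k (LinearMap.range φ) = finrank k (LinearMap.range ψ) := by
  let T : (M' →ₗ[k] k) →ₗ[k] (M →ₗ[k] k) := g.dualMap
  have hT : ∀ f x, T f x = f (g x) := fun f x => rfl
  have hinj : Function.Injective (T.domRestrict (LinearMap.range ψ)) := by
    rw [injective_iff_map_eq_zero]
    rintro ⟨_, ⟨z, rfl⟩⟩ hz
    ext w
    obtain ⟨x, -, hx⟩ := hs w
    have := LinearMap.congr_fun hz x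
    simp only [LinearMap.domRestrict_apply, hT, LinearMap.zero_apply] at this
    rw [hx, this]
    rfl
  suffices hr : LinearMap.range φ = LinearMap.range (T.domRestrict (LinearMap.range ψ)) by
    rw [hr, LinearMap.finrank_range_of_inj hinj]
  ext f
  simp only [LinearMap.mem_range, Subtype.exists, LinearMap.domRestrict_apply]
  constructor
  · rintro ⟨x, rfl⟩
    refine ⟨ψ (g x), ⟨g x, rfl⟩, ?_⟩
    ext y
    rw [hT, hφ]
  · rintro ⟨_, ⟨z, rfl⟩, rfl⟩
    obtain ⟨x, hx, -⟩ := hs z
    refine ⟨x, ?_⟩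
    ext y
    rw [hT, hφ, hx]

theorem rk_pullback {E' : Type*} [AddCommGroup E'] [Module k E'] (φ : E →ₗ[k] E →ₗ[k] k)
    (ψ : E' →ₗ[k] E' →ₗ[k] k) (A : Submodule k E) (f : E →ₗ[k] E')
    (hφ : ∀ x ∈ A, ∀ y ∈ A, φ x y = ψ (f x) (f y)) : rk φ A = rk ψ (A.map f) := by
  unfold rk
  apply finrank_range_pullback _ _
    (f.restrict (p := A) (q := A.map f) (fun x hx => Submodule.mem_map_of_mem hx))
  · intro x y
    exact hφ x x.2 y y.2
  · rintro ⟨_, ⟨x, hx, rfl⟩⟩
    exact ⟨⟨x, hx⟩, fun w => rfl, fun w => rfl⟩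

theorem exists_dual [FiniteDimensional k E] (φ : E →ₗ[k] E →ₗ[k] k) : ∀ (n : ℕ)
    (A C : Submodule k E), finrank k C = n → ∃ (ι : Type) (_ : Fintype ι) (_ : DecidableEq ι)
      (b x : ι → E), (∀ i, b i ∈ A) ∧ (∀ i, x i ∈ C) ∧
      (∀ i j, φ (b i) (x j) = if i = j then 1 else 0) ∧
      ∀ c ∈ C, ∀ a ∈ A, φ a (c - ∑ i, φ (b i) c • x i) = 0 := by
  intro n
  induction n using Nat.strong_induction_on with
  | _ n ih =>
    intro A C hn
    by_cases h : ∀ a ∈ A, ∀ c ∈ C, φ a c = 0
    · exact ⟨Empty, inferInstance, inferInstance, Empty.elim, Empty.elim, by simp, by simp,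
        by simp, fun c hc a ha => by simp [h a ha c hc]⟩
    · push Not at h
      obtain ⟨b, hb, x₀, hx₀, hne⟩ := h
      obtain ⟨x, hx, hbx⟩ : ∃ x ∈ C, φ b x = 1 := ⟨(φ b x₀)⁻¹ • x₀, C.smul_mem _ hx₀, by
        rw [map_smul, smul_eq_mul, inv_mul_cancel₀ hne]⟩
      have hlt : finrank k ↥(C ⊓ LinearMap.ker (φ b)) < n := by
        rw [← hn]
        apply Submodule.finrank_lt_finrank_of_lt
        refine lt_of_le_of_ne inf_le_left ?_
        intro heq
        have : x ∈ C ⊓ LinearMap.ker (φ b) := by rw [heq]; exact hx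
        have := LinearMap.mem_ker.1 this.2
        rw [hbx] at this
        exact one_ne_zero this
      obtain ⟨ι, i1, i2, b', x', h1, h2, h3, h4⟩ := ih _ hlt (A ⊓ LinearMap.ker (φ.flip x))
        (C ⊓ LinearMap.ker (φ b)) rfl
      have h1' : ∀ i, φ (b' i) x = 0 := fun i => LinearMap.mem_ker.1 (h1 i).2
      have h2' : ∀ i, φ b (x' i) = 0 := fun i => LinearMap.mem_ker.1 (h2 i).2
      refine ⟨Option ι, inferInstance, inferInstance, fun o => o.elim b b', fun o => o.elim x x',
        ?_, ?_, ?_, ?_⟩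
      · rintro (_ | i)
        · exact hb
        · exact (h1 i).1
      · rintro (_ | i)
        · exact hx
        · exact (h2 i).1
      · rintro (_ | i) (_ | j)
        · simpa using hbx
        · simpa using h2' j
        · simpa using h1' i
        · simpa using h3 i j
      · intro c hc a ha
        rw [Fintype.sum_option]
        simp only [Option.elim]
        -- reduce to `c' = c - φ b c • x`
        have hc' : c - φ b c • x ∈ C ⊓ LinearMap.ker (φ b) := by
          refine ⟨C.sub_mem hc (C.smul_mem _ hx), ?_⟩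
          rw [SetLike.mem_coe, LinearMap.mem_ker, map_sub, map_smul, hbx]
          simp
        have ha' : a - φ a x • b ∈ A ⊓ LinearMap.ker (φ.flip x) := by
          refine ⟨A.sub_mem ha (A.smul_mem _ hb), ?_⟩
          rw [SetLike.mem_coe, LinearMap.mem_ker, LinearMap.flip_apply, map_sub, map_smul]
          simp [hbx]
        have h5 := h4 _ hc' _ ha'
        have h6 : ∀ i, φ (b' i) (c - φ b c • x) = φ (b' i) c := by
          intro i
          rw [map_sub, map_smul, h1' i]
          simp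
        simp only [h6] at h5
        have h7 : φ b (c - φ b c • x - ∑ i, φ (b' i) c • x' i) = 0 := by
          rw [map_sub, LinearMap.mem_ker.1 hc'.2, map_sum, zero_sub, neg_eq_zero]
          apply Finset.sum_eq_zero
          intro i _
          rw [map_smul, h2' i, smul_zero]
        rw [LinearMap.map_sub₂, LinearMap.map_smul₂, h7, smul_zero, sub_zero] at h5
        rw [← sub_sub]
        exact h5

/-- The number of elements of a dual family. -/
theorem card_dual [FiniteDimensional k E] (φ : E →ₗ[k] E →ₗ[k] k) (A C H : Submodule k E)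
    (hH : ∀ x, x ∈ H ↔ x ∈ C ∧ ∀ b ∈ A, φ b x = 0)
    {ι : Type} [Fintype ι] [DecidableEq ι] (b x : ι → E) (hb : ∀ i, b i ∈ A) (hx : ∀ i, x i ∈ C)
    (hd : ∀ i j, φ (b i) (x j) = if i = j then 1 else 0)
    (hc : ∀ c ∈ C, ∀ a ∈ A, φ a (c - ∑ i, φ (b i) c • x i) = 0) :
    finrank k C = finrank k H + Fintype.card ι := by
  let T : C →ₗ[k] (ι → k) := LinearMap.pi fun i => (φ (b i)).domRestrict C
  have hT : ∀ c i, T c i = φ (b i) c := fun c i => rfl
  have h1 := LinearMap.finrank_range_add_finrank_ker T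
  have hr : LinearMap.range T = ⊤ := by
    rw [LinearMap.range_eq_top]
    intro f
    refine ⟨∑ j, f j • ⟨x j, hx j⟩, ?_⟩
    ext i
    rw [hT]
    simp only [Submodule.coe_sum, Submodule.coe_smul, map_sum, map_smul, hd, smul_eq_mul,
      mul_ite, mul_one, mul_zero]
    simp
  have hk : finrank k (LinearMap.ker T) = finrank k H := by
    rw [← Submodule.finrank_map_subtype_eq C (LinearMap.ker T)]
    suffices hh : (LinearMap.ker T).map C.subtype = H by rw [hh]
    ext y
    simp only [Submodule.mem_map, LinearMap.mem_ker, Submodule.subtype_apply, Subtype.exists,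
      exists_and_right, exists_eq_right]
    rw [hH]
    constructor
    · rintro ⟨hy, hy2⟩
      refine ⟨hy, fun a ha => ?_⟩
      have h3 := hc y hy a ha
      have h4 : ∀ i, φ (b i) y = 0 := fun i => by
        have := congrFun hy2 i
        rwa [hT] at this
      simpa [h4] using h3
    · rintro ⟨hy, hy2⟩
      refine ⟨hy, ?_⟩
      ext i
      rw [hT]
      exact hy2 _ (hb i)
  rw [hr, hk, finrank_top, Module.finrank_fintype_fun_eq_card] at h1
  omega

end Pool.Agent.Helper54.SKW
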