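import Mathlib
import Pool.Agent.Helper54.SKW.Base
import Pool.Agent.Helper54.SKW.Rank

/-!
# Lie superalgebras of endomorphisms, ideals and weights
-/

namespace Pool.Agent.Helper54.SKW

open Module

variable {k V : Type*} [Field k] [AddCommGroup V] [Module k V]

/-- A restricted Lie superalgebra of endomorphisms of `V` containing the scalars; `π` is the
parity operator. -/
structure IsSys (p : ℕ) (π : Module.End k V) (L : ZMod 2 → Submodule k (Module.End k V)) :
    Prop where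
  pp : π * π = 1
  one : 1 ∈ L 0
  deg : ∀ i, ∀ T ∈ L i, π * T = sg i 1 • (T * π)
  brk : ∀ i j, ∀ S ∈ L i, ∀ T ∈ L j, br i j S T ∈ L (i + j)
  pow : ∀ T ∈ L 0, T ^ p ∈ L 0

/-- Solvability, as the existence of a descending chain of ideals. -/
def IsSolv (L : ZMod 2 → Submodule k (Module.End k V)) : Prop :=
  ∃ (N : ℕ) (S : ℕ → ZMod 2 → Submodule k (Module.End k V)), S 0 = L ∧ (∀ i, S N i = ⊥) ∧
    (∀ n i, S n i ≤ L i) ∧
    (∀ n i j, ∀ A ∈ S n i, ∀ B ∈ S n j, br i j A B ∈ S (n + 1) (i + j)) ∧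
    (∀ n i j, ∀ A ∈ L i, ∀ B ∈ S n j, br i j A B ∈ S n (i + j))

/-- Irreducibility in the graded sense. -/
def Irr (π : Module.End k V) (L : ZMod 2 → Submodule k (Module.End k V)) : Prop :=
  Nontrivial V ∧ ∀ W : Submodule k V, (∀ w ∈ W, π w ∈ W) → (∀ i, ∀ T ∈ L i, ∀ w ∈ W, T w ∈ W) →
    W = ⊥ ∨ W = ⊤

/-- Ideals containing the scalars. -/
structure IsIdl (L I : ZMod 2 → Submodule k (Module.End k V)) : Prop where
  le : ∀ i, I i ≤ L i
  one : 1 ∈ I 0
  brk : ∀ i j, ∀ A ∈ L i, ∀ B ∈ I j, br i j A B ∈ I (i + j)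

/-- Supercommutativity. -/
def SC (I : ZMod 2 → Submodule k (Module.End k V)) : Prop :=
  ∀ i j, ∀ A ∈ I i, ∀ B ∈ I j, br i j A B = 0

/-- The form `(S, T) ↦ θ [S, T]` on operators of degree `i`. -/
noncomputable def fm (i : ZMod 2) (θ : Module.End k V →ₗ[k] k) :
    Module.End k V →ₗ[k] Module.End k V →ₗ[k] k :=
  (LinearMap.mul k (Module.End k V)).compr₂ θ -
    sg i i • (LinearMap.mul k (Module.End k V)).flip.compr₂ θ

theorem fm_apply (i : ZMod 2) (θ : Module.End k V →ₗ[k] k) (S T : Module.End k V) :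
    fm i θ S T = θ (br i i S T) := by
  rw [fm]
  simp only [LinearMap.sub_apply, LinearMap.smul_apply, LinearMap.compr₂_apply,
    LinearMap.mul_apply', LinearMap.flip_apply, br, map_sub, map_zsmul]

theorem fm_refl (i : ZMod 2) (θ : Module.End k V →ₗ[k] k) (S T : Module.End k V)
    (h : fm i θ S T = 0) : fm i θ T S = 0 := by
  rw [fm_apply] at *
  rw [br_symm, map_neg, map_zsmul, h]
  simp

section Weight

variable [FiniteDimensional k V]

theorem exists_weight [IsAlgClosed k] (h2 : (2 : k) ≠ 0) (hV : Nontrivial V)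
    (π : Module.End k V) (I : ZMod 2 → Submodule k (Module.End k V))
    (deg : ∀ i, ∀ T ∈ I i, π * T = sg i 1 • (T * π)) (hI : SC I) :
    ∃ (μ : Module.End k V →ₗ[k] k) (w : V), w ≠ 0 ∧ μ 1 = 1 ∧ (∀ b ∈ I 1, μ b = 0) ∧
      ∀ i, ∀ b ∈ I i, b w = μ b • w := by
  classical
  let P : ℕ → Prop := fun n => ∃ W : Submodule k V, W ≠ ⊥ ∧ (∀ w ∈ W, π w ∈ W) ∧
    (∀ i, ∀ b ∈ I i, ∀ w ∈ W, b w ∈ W) ∧ finrank k W = n
  have hP : ∃ n, P n := ⟨_, ⊤, top_ne_bot, by simp, by simp, rfl⟩
  obtain ⟨W, hW0, hWπ, hWI, hWn⟩ := Nat.find_spec hP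
  have hmin : ∀ W' : Submodule k V, W' ≤ W → W' ≠ ⊥ → (∀ w ∈ W', π w ∈ W') →
      (∀ i, ∀ b ∈ I i, ∀ w ∈ W', b w ∈ W') → W' = W := by
    intro W' hle h0 h1 h2
    apply Submodule.eq_of_le_of_finrank_le hle
    rw [hWn]
    exact Nat.find_min' hP ⟨W', h0, h1, h2, rfl⟩
  have comm : ∀ i j, ∀ A ∈ I i, ∀ B ∈ I j, ∀ v, A (B v) = sg i j • B (A v) := by
    intro i j A hA B hB v
    have h := hI i j A hA B hB
    rw [br, sub_eq_zero] at h
    have := LinearMap.congr_fun h v
    simpa using this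
  have degv : ∀ i, ∀ A ∈ I i, ∀ v, A (π v) = sg i 1 • π (A v) := by
    intro i A hA v
    have := LinearMap.congr_fun (deg i A hA) v
    simp only [Module.End.mul_apply, LinearMap.smul_apply] at this
    rw [this, smul_smul, sg_sq, one_smul]
  have hev : ∀ b ∈ I 0, ∃ c : k, ∀ w ∈ W, b w = c • w := by
    intro b hb
    have : Nontrivial W := (Submodule.nontrivial_iff_ne_bot).2 hW0
    obtain ⟨c, hc⟩ := Module.End.exists_eigenvalue (b.restrict (hWI 0 b hb))
    obtain ⟨u, hu⟩ := hc.exists_hasEigenvector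
    refine ⟨c, ?_⟩
    have h3 : W ⊓ LinearMap.ker (b - c • 1) = W := by
      apply hmin _ inf_le_left
      · intro h0
        have h4 : (u : V) ∈ W ⊓ LinearMap.ker (b - c • 1) := by
          refine ⟨u.2, ?_⟩
          rw [SetLike.mem_coe, LinearMap.mem_ker, LinearMap.sub_apply, sub_eq_zero]
          have h5 := congrArg Subtype.val (hu.apply_eq_smul)
          simpa using h5
        rw [h0] at h4
        exact hu.2 (Subtype.ext ((Submodule.mem_bot k).1 h4))
      · rintro w ⟨hw, hw2⟩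
        refine ⟨hWπ w hw, ?_⟩
        rw [SetLike.mem_coe, LinearMap.mem_ker] at hw2 ⊢
        have h5 := degv 0 b hb w
        simp only [LinearMap.sub_apply, LinearMap.smul_apply, Module.End.one_apply,
          sub_eq_zero] at hw2 ⊢
        rw [h5, hw2]
        simp
      · rintro i T hT w ⟨hw, hw2⟩
        refine ⟨hWI i T hT w hw, ?_⟩
        rw [SetLike.mem_coe, LinearMap.mem_ker] at hw2 ⊢
        have h5 := comm 0 i b hb T hT w
        simp only [LinearMap.sub_apply, LinearMap.smul_apply, Module.End.one_apply,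
          sub_eq_zero] at hw2 ⊢
        rw [h5, hw2]
        simp
    intro w hw
    rw [← h3] at hw
    have h4 := LinearMap.mem_ker.1 hw.2
    simpa [sub_eq_zero] using h4
  have hod : ∀ y ∈ I 1, ∀ w ∈ W, y w = 0 := by
    intro y hy
    have hyy : ∀ v, y (y v) = 0 := by
      intro v
      have h3 := comm 1 1 y hy y hy v
      rw [sg_one_one, neg_smul, one_smul, eq_neg_iff_add_eq_zero, ← two_smul k] at h3
      exact (smul_eq_zero.1 h3).resolve_left h2
    have h3 : W ⊓ LinearMap.ker y = W := by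
      apply hmin _ inf_le_left
      · intro h0
        have h4 : ∀ w ∈ W, y w = 0 := by
          intro w hw
          have : y w ∈ W ⊓ LinearMap.ker y := ⟨hWI 1 y hy w hw, hyy w⟩
          rw [h0] at this
          exact (Submodule.mem_bot k).1 this
        apply hW0
        rw [eq_bot_iff, ← h0]
        exact fun w hw => ⟨hw, h4 w hw⟩
      · rintro w ⟨hw, hw2⟩
        refine ⟨hWπ w hw, ?_⟩
        rw [SetLike.mem_coe, LinearMap.mem_ker] at hw2 ⊢
        rw [degv 1 y hy, hw2, map_zero, smul_zero]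
      · rintro i T hT w ⟨hw, hw2⟩
        refine ⟨hWI i T hT w hw, ?_⟩
        rw [SetLike.mem_coe, LinearMap.mem_ker] at hw2 ⊢
        rw [comm 1 i y hy T hT w, hw2, map_zero, smul_zero]
    intro w hw
    rw [← h3] at hw
    exact hw.2
  obtain ⟨w, hw, hw0⟩ := (Submodule.ne_bot_iff W).1 hW0
  obtain ⟨ψ, hψ⟩ : ∃ ψ : V →ₗ[k] k, ψ w = 1 := by
    by_contra hcon
    push Not at hcon
    apply hw0
    rw [← Module.forall_dual_apply_eq_zero_iff k w]
    intro φ
    by_contra hφ
    exact hcon ((φ w)⁻¹ • φ) (by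
      rw [LinearMap.smul_apply, smul_eq_mul, inv_mul_cancel₀ hφ])
  refine ⟨ψ ∘ₗ LinearMap.applyₗ w, w, hw0, by simpa using hψ, ?_, ?_⟩
  · intro b hb
    simp [hod b hb w hw]
  · intro i b hb
    rcases z2 i with rfl | rfl
    · obtain ⟨c, hc⟩ := hev b hb
      simp only [LinearMap.comp_apply, LinearMap.applyₗ_apply_apply]
      rw [hc w hw, map_smul, hψ, smul_eq_mul, mul_one]
    · simp [hod b hb w hw]

end Weight

/-- The vacuum space of weight `μ`. -/
def Vac (I : ZMod 2 → Submodule k (Module.End k V)) (μ : Module.End k V →ₗ[k] k) :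
    Submodule k V where
  carrier := {v | ∀ i, ∀ b ∈ I i, b v = μ b • v}
  add_mem' := by
    intro u v hu hv i b hb
    rw [map_add, hu i b hb, hv i b hb, smul_add]
  zero_mem' := by intro i b _; simp
  smul_mem' := by
    intro c v hv i b hb
    rw [map_smul, hv i b hb, smul_comm]

/-- The stabiliser of `μ`. -/
def Stab (L I : ZMod 2 → Submodule k (Module.End k V)) (μ : Module.End k V →ₗ[k] k)
    (i : ZMod 2) : Submodule k (Module.End k V) where
  carrier := {x | x ∈ L i ∧ ∀ b ∈ I i, fm i μ b x = 0}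
  add_mem' := by
    rintro u v ⟨hu, hu'⟩ ⟨hv, hv'⟩
    refine ⟨(L i).add_mem hu hv, fun b hb => ?_⟩
    rw [map_add, hu' b hb, hv' b hb, add_zero]
  zero_mem' := ⟨(L i).zero_mem, fun b _ => by simp⟩
  smul_mem' := by
    rintro c v ⟨hv, hv'⟩
    refine ⟨(L i).smul_mem _ hv, fun b hb => ?_⟩
    rw [map_smul, hv' b hb, smul_zero]

theorem mem_Stab {L I : ZMod 2 → Submodule k (Module.End k V)} {μ : Module.End k V →ₗ[k] k}
    {i : ZMod 2} {x : Module.End k V} :
    x ∈ Stab L I μ i ↔ x ∈ L i ∧ ∀ b ∈ I i, fm i μ b x = 0 := Iff.rfl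

section StabLemmas

variable {p : ℕ} {π : Module.End k V} {L I : ZMod 2 → Submodule k (Module.End k V)}
  {μ : Module.End k V →ₗ[k] k}

theorem Stab_all (hI : IsIdl L I) (hμ : ∀ b ∈ I 1, μ b = 0) {i : ZMod 2} {x : Module.End k V}
    (hx : x ∈ Stab L I μ i) (j : ZMod 2) (b : Module.End k V) (hb : b ∈ I j) :
    μ (br j i b x) = 0 := by
  by_cases hij : j = i
  · subst hij
    have := hx.2 b hb
    rwa [fm_apply] at this
  · apply hμ
    have h1 : i + j = 1 := by
      rcases z2 i with rfl | rfl <;> rcases z2 j with rfl | rfl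
      · exact absurd rfl hij
      · rfl
      · rfl
      · exact absurd rfl hij
    have h2 := hI.brk i j x hx.1 b hb
    rw [h1] at h2
    rw [br_symm]
    exact (I 1).neg_mem ((I 1).toAddSubgroup.zsmul_mem h2 _)

theorem Stab_le : ∀ i, Stab L I μ i ≤ L i := fun _ _ hx => hx.1

theorem le_Stab (hI : IsIdl L I) (hsc : SC I) : ∀ i, I i ≤ Stab L I μ i := by
  intro i x hx
  refine ⟨hI.le i hx, fun b hb => ?_⟩
  rw [fm_apply, hsc i i b hb x hx, map_zero]

theorem Stab_apply (hI : IsIdl L I) (hμ : ∀ b ∈ I 1, μ b = 0) {i : ZMod 2} {x : Module.End k V}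
    (hx : x ∈ Stab L I μ i) : ∀ v ∈ Vac I μ, x v ∈ Vac I μ := by
  intro v hv j b hb
  have h1 := LinearMap.congr_fun (br_mul j i b x) v
  simp only [Module.End.mul_apply, LinearMap.add_apply, LinearMap.smul_apply] at h1
  have h3 : br j i b x ∈ I (j + i) := by
    rw [br_symm, add_comm]
    exact (I _).neg_mem ((I _).toAddSubgroup.zsmul_mem (hI.brk i j x hx.1 b hb) _)
  have h2 : br j i b x v = 0 := by
    rw [hv _ _ h3, Stab_all hI hμ hx j b hb, zero_smul]
  rw [h1, h2, zero_add, hv j b hb, map_smul]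
  rcases z2 j with rfl | rfl
  · simp
  · simp [hμ b hb]

theorem Stab_sys (hL : IsSys p π L) [hp : Fact p.Prime] [CharP k p] [Nontrivial V]
    (hI : IsIdl L I) (hsc : SC I) (hμ : ∀ b ∈ I 1, μ b = 0) : IsSys p π (Stab L I μ) where
  pp := hL.pp
  one := le_Stab hI hsc 0 hI.one
  deg := fun i T hT => hL.deg i T hT.1
  brk := by
    intro i j S hS T hT
    refine ⟨hL.brk i j S hS.1 T hT.1, fun b hb => ?_⟩
    rw [fm_apply]
    have hSb : ∀ l, ∀ c ∈ I l, br i l S c ∈ I (i + l) := fun l c hc => hI.brk i l S hS.1 c hc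
    have hTb : ∀ l, ∀ c ∈ I l, br j l T c ∈ I (j + l) := fun l c hc => hI.brk j l T hT.1 c hc
    rw [br_symm, map_neg, map_zsmul, br_jacobi, map_sub, map_zsmul]
    have h1 : ∀ c l, c ∈ I l → μ (br i l S c) = 0 := by
      intro c l hc
      rw [br_symm, map_neg, map_zsmul, Stab_all hI hμ hS l c hc]
      simp
    have h2 : ∀ c l, c ∈ I l → μ (br j l T c) = 0 := by
      intro c l hc
      rw [br_symm, map_neg, map_zsmul, Stab_all hI hμ hT l c hc]
      simp
    rw [h1 _ _ (hTb _ b hb), h2 _ _ (hSb _ b hb)]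
    simp
  pow := by
    intro T hT
    refine ⟨hL.pow T hT.1, fun b hb => ?_⟩
    rw [fm_apply, br_symm, map_neg, map_zsmul]
    have h1 := ad_pow_char (k := k) p T b
    have h2 : br 0 0 (T ^ p) b = T ^ p * b - b * T ^ p := by simp [br]
    rw [h2, ← h1]
    obtain ⟨q, hq⟩ : ∃ q, p = q + 1 := ⟨p - 1, by have := hp.out.two_le; omega⟩
    have h3 : ∀ n, ((LinearMap.mulLeft k T - LinearMap.mulRight k T) ^ n) b ∈ I 0 := by
      intro n
      induction n with
      | zero => simpa using hb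
      | succ n ih =>
        rw [pow_succ', Module.End.mul_apply]
        have := hI.brk 0 0 T hT.1 _ ih
        simpa [br] using this
    have h4 : μ (((LinearMap.mulLeft k T - LinearMap.mulRight k T) ^ p) b) = 0 := by
      rw [hq, pow_succ', Module.End.mul_apply]
      have h5 := Stab_all hI hμ hT 0 _ (h3 q)
      simp only [br, sg_zero_left, one_smul, map_sub] at h5
      rw [LinearMap.sub_apply, LinearMap.mulLeft_apply, LinearMap.mulRight_apply, map_sub]
      exact sub_eq_zero.2 (sub_eq_zero.1 h5).symm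
    rw [h4]
    simp

theorem Vac_ne_top (hμ : ∀ b ∈ I 1, μ b = 0)
    (hn : ∃ i, ¬ I i ≤ Zs k (Module.End k V) i) : Vac I μ ≠ ⊤ := by
  intro htop
  obtain ⟨i, hi⟩ := hn
  apply hi
  intro b hb
  have h1 : b = μ b • 1 := by
    ext v
    have : v ∈ Vac I μ := htop ▸ trivial
    simpa using this i b hb
  rcases z2 i with rfl | rfl
  · exact mem_Zs_zero.2 ⟨_, h1.symm⟩
  · rw [mem_Zs_one, h1, hμ b hb, zero_smul]

theorem Vac_pi (hL : IsSys p π L) (hI : IsIdl L I) (hμ : ∀ b ∈ I 1, μ b = 0) :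
    ∀ v ∈ Vac I μ, π v ∈ Vac I μ := by
  intro v hv i b hb
  have h1 := LinearMap.congr_fun (hL.deg i b (hI.le i hb)) v
  simp only [Module.End.mul_apply, LinearMap.smul_apply] at h1
  have h2 : b (π v) = sg i 1 • π (b v) := by
    rw [h1, smul_smul, sg_sq, one_smul]
  rw [h2, hv i b hb, map_smul]
  rcases z2 i with rfl | rfl
  · simp
  · simp [hμ b hb]

end StabLemmas

end Pool.Agent.Helper54.SKW
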