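import Mathlib
import Pool.Agent.Helper54.SKW.Filt
import Pool.Agent.Helper54.SKW.Sys

/-!
# Dimension formula for a supercommutative ideal
-/

namespace Pool.Agent.Helper54.SKW

open Module

variable {k V : Type*} [Field k] [AddCommGroup V] [Module k V]

/-- `W + L W`. -/
def stp (L : ZMod 2 → Submodule k (Module.End k V)) (W : Submodule k V) : Submodule k V :=
  W ⊔ (Submodule.map₂ LinearMap.id (L 0) W ⊔ Submodule.map₂ LinearMap.id (L 1) W)

theorem le_stp (L : ZMod 2 → Submodule k (Module.End k V)) (W : Submodule k V) : W ≤ stp L W :=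
  le_sup_left

theorem apply_mem_stp {L : ZMod 2 → Submodule k (Module.End k V)} {W : Submodule k V} {i : ZMod 2}
    {T : Module.End k V} (hT : T ∈ L i) {w : V} (hw : w ∈ W) : T w ∈ stp L W := by
  have h : ∀ j, T ∈ L j → T w ∈ Submodule.map₂ LinearMap.id (L j) W := fun j hj =>
    Submodule.apply_mem_map₂ LinearMap.id hj hw
  rcases z2 i with rfl | rfl
  · exact le_sup_right (a := W) (le_sup_left (a := Submodule.map₂ LinearMap.id (L 0) W) (h 0 hT))
  · exact le_sup_right (a := W) (le_sup_right (b := Submodule.map₂ LinearMap.id (L 1) W) (h 1 hT))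

theorem stp_le {L : ZMod 2 → Submodule k (Module.End k V)} {W W' : Submodule k V} (h : W ≤ W')
    (h' : ∀ i, ∀ T ∈ L i, ∀ w ∈ W, T w ∈ W') : stp L W ≤ W' := by
  refine sup_le h (sup_le ?_ ?_)
  · rw [Submodule.map₂_le]
    intro T hT w hw
    exact h' 0 T hT w hw
  · rw [Submodule.map₂_le]
    intro T hT w hw
    exact h' 1 T hT w hw

theorem caseA_dim [FiniteDimensional k V] (p : ℕ) [hp : Fact p.Prime] [CharP k p]
    (h2 : (2 : k) ≠ 0)
    {π : Module.End k V} {L I : ZMod 2 → Submodule k (Module.End k V)}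
    {μ : Module.End k V →ₗ[k] k} (hL : IsSys p π L) (hirr : Irr π L) (hI : IsIdl L I)
    (hsc : SC I) (hμ : ∀ b ∈ I 1, μ b = 0) :
    ∃ r₀ r₁ : ℕ, finrank k (L 0) = finrank k (Stab L I μ 0) + r₀ ∧
      finrank k (L 1) = finrank k (Stab L I μ 1) + r₁ ∧
      ∀ U : Submodule k V, U ≠ ⊥ → U ≤ Vac I μ → (∀ u ∈ U, π u ∈ U) →
        (∀ i, ∀ T ∈ Stab L I μ i, ∀ u ∈ U, T u ∈ U) →
        finrank k V = p ^ r₀ * 2 ^ r₁ * finrank k U := by
  classical
  obtain ⟨ι₀, i1, i2, b₀, x₀, hb₀, hx₀, hd₀, hc₀⟩ := exists_dual (fm 0 μ) _ (I 0) (L 0) rfl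
  obtain ⟨ι₁, i3, i4, b₁, x₁, hb₁, hx₁, hd₁, hc₁⟩ := exists_dual (fm 1 μ) _ (I 1) (L 1) rfl
  refine ⟨Fintype.card ι₀, Fintype.card ι₁,
    card_dual (fm 0 μ) (I 0) (L 0) (Stab L I μ 0) (fun x => mem_Stab) b₀ x₀ hb₀ hx₀ hd₀ hc₀,
    card_dual (fm 1 μ) (I 1) (L 1) (Stab L I μ 1) (fun x => mem_Stab) b₁ x₁ hb₁ hx₁ hd₁ hc₁, ?_⟩
  intro U hU0 hUV hUπ hUS
  -- combined families
  let par : ι₀ ⊕ ι₁ → ZMod 2 := Sum.elim (fun _ => 0) (fun _ => 1)
  let X : ι₀ ⊕ ι₁ → Module.End k V := Sum.elim x₀ x₁
  let b : ι₀ ⊕ ι₁ → Module.End k V := Sum.elim b₀ b₁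
  let B : ι₀ ⊕ ι₁ → Module.End k V := fun s => b s - μ (b s) • 1
  have hX : ∀ s, X s ∈ L (par s) := by
    rintro (s | s)
    · exact hx₀ s
    · exact hx₁ s
  have hb : ∀ s, b s ∈ I (par s) := by
    rintro (s | s)
    · exact hb₀ s
    · exact hb₁ s
  have hbr : ∀ i j, ∀ c ∈ I i, ∀ x ∈ L j, br i j c x ∈ I (i + j) := by
    intro i j c hc x hx
    rw [br_symm, add_comm]
    exact (I _).neg_mem ((I _).toAddSubgroup.zsmul_mem (hI.brk j i x hx c hc) _)
  have hd : ∀ s t, μ (br (par s) (par t) (b s) (X t)) = if s = t then 1 else 0 := by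
    rintro (s | s) (t | t)
    · have := hd₀ s t
      rw [fm_apply] at this
      simp only [Sum.inl.injEq]
      exact this
    · have h1 := hbr 0 1 _ (hb₀ s) _ (hx₁ t)
      simp only [reduceCtorEq, if_false]
      exact hμ _ h1
    · have h1 := hbr 1 0 _ (hb₁ s) _ (hx₀ t)
      simp only [reduceCtorEq, if_false]
      exact hμ _ h1
    · have := hd₁ s t
      rw [fm_apply] at this
      simp only [Sum.inr.injEq]
      exact this
  -- the filtration
  let G : ℕ → Submodule k V := fun n => Nat.rec U (fun _ W => stp L W) n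
  have G0 : G 0 = U := rfl
  have GS : ∀ n, G (n + 1) = stp L (G n) := fun n => rfl
  have Gmono : Monotone G := monotone_nat_of_le_succ fun n => GS n ▸ le_stp L (G n)
  have P1 : ∀ n i, ∀ T ∈ L i, ∀ v ∈ G n, T v ∈ G (n + 1) := fun n i T hT v hv =>
    GS n ▸ apply_mem_stp hT hv
  have P2 : ∀ n i, ∀ T ∈ Stab L I μ i, ∀ v ∈ G n, T v ∈ G n := by
    intro n
    induction n with
    | zero => exact hUS
    | succ n ih =>
      intro i T hT
      have h1 : stp L (G n) ≤ (G (n + 1)).comap T := by
        apply stp_le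
        · intro w hw
          exact Gmono (Nat.le_succ n) (ih i T hT w hw)
        · intro j x hx w hw
          rw [Submodule.mem_comap]
          have h2 := LinearMap.congr_fun (br_mul i j T x) w
          simp only [Module.End.mul_apply, LinearMap.add_apply, LinearMap.smul_apply] at h2
          rw [h2]
          refine (G (n + 1)).add_mem (P1 n _ _ (hL.brk i j T hT.1 x hx) w hw) ?_
          exact (G (n + 1)).toAddSubgroup.zsmul_mem (P1 n j x hx _ (ih i T hT w hw)) _
      exact fun v hv => h1 hv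
  have P3 : ∀ n i, ∀ c ∈ I i, (∀ v ∈ G n, c v - μ c • v ∈ (if n = 0 then ⊥ else G (n - 1))) := by
    intro n
    induction n with
    | zero =>
      intro i c hc v hv
      rw [if_pos rfl, hUV hv i c hc, sub_self]
      exact Submodule.zero_mem _
    | succ n ih =>
      intro i c hc
      rw [if_neg (Nat.succ_ne_zero n), Nat.add_sub_cancel]
      have h0 : ∀ v ∈ G n, c v - μ c • v ∈ G n := fun v hv =>
        (G n).sub_mem (P2 n i c (le_Stab hI hsc i hc) v hv) ((G n).smul_mem _ hv)
      have h1 : stp L (G n) ≤ (G n).comap (c - μ c • 1) := by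
        apply stp_le
        · intro w hw
          simpa using h0 w hw
        · intro j x hx w hw
          rw [Submodule.mem_comap]
          have h2 := LinearMap.congr_fun (br_mul i j c x) w
          simp only [Module.End.mul_apply, LinearMap.add_apply, LinearMap.smul_apply] at h2
          have h3 : x (c w - μ c • w) ∈ G n := by
            have h4 := ih i c hc w hw
            by_cases hn : n = 0
            · rw [if_pos hn, Submodule.mem_bot] at h4
              rw [h4, map_zero]
              exact (G n).zero_mem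
            · rw [if_neg hn] at h4
              have h5 := P1 (n - 1) j x hx _ h4
              rwa [Nat.sub_add_cancel (Nat.one_le_iff_ne_zero.2 hn)] at h5
          have h6 : br i j c x w ∈ G n := P2 n _ _ (le_Stab hI hsc _ (hbr i j c hc x hx)) w hw
          have h7 : (c - μ c • (1 : Module.End k V)) (x w) =
              br i j c x w + sg i j • x (c w - μ c • w) := by
            simp only [LinearMap.sub_apply, LinearMap.smul_apply, Module.End.one_apply, h2,
              map_sub, map_smul, smul_sub]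
            have h8 : μ c • x w = sg i j • μ c • x w := by
              rcases z2 i with rfl | rfl
              · simp
              · simp [hμ c hc]
            rw [← h8]
            abel
          rw [h7]
          exact (G n).add_mem h6 ((G n).toAddSubgroup.zsmul_mem h3 _)
      intro v hv
      have := h1 hv
      simpa using this
  have Gπ : ∀ n, ∀ v ∈ G n, π v ∈ G n := by
    intro n
    induction n with
    | zero => exact hUπ
    | succ n ih =>
      have h1 : stp L (G n) ≤ (G (n + 1)).comap π := by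
        apply stp_le
        · intro w hw
          exact Gmono (Nat.le_succ n) (ih w hw)
        · intro j x hx w hw
          rw [Submodule.mem_comap]
          have h2 := LinearMap.congr_fun (hL.deg j x hx) w
          simp only [Module.End.mul_apply, LinearMap.smul_apply] at h2
          rw [h2]
          exact (G (n + 1)).toAddSubgroup.zsmul_mem (P1 n j x hx _ (ih w hw)) _
      exact fun v hv => h1 hv
  obtain ⟨N, hN⟩ : ∃ N, G N = ⊤ := by
    obtain ⟨n, hn⟩ := monotone_stabilizes_iff_noetherian.2 (inferInstance : IsNoetherian k V)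
      ⟨G, Gmono⟩
    refine ⟨n, ?_⟩
    rcases hirr.2 (G n) (Gπ n) (fun i T hT w hw => by
      have h1 := P1 n i T hT w hw
      have h3 : G n = G (n + 1) := hn (n + 1) (Nat.le_succ n)
      rwa [← h3] at h1) with h | h
    · exfalso
      apply hU0
      rw [eq_bot_iff, ← h]
      exact Gmono (Nat.zero_le n)
    · exact h
  let F : ℤ → Submodule k V := fun n => if n ≤ 0 then ⊥ else G (n - 1).toNat
  have hF : Monotone F := by
    intro a c hac
    simp only [F]
    split_ifs with h1 h3
    · exact le_rfl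
    · exact bot_le
    · exact absurd (hac.trans (by assumption)) h1
    · exact Gmono (by omega)
  have F0 : F 0 = ⊥ := by simp [F]
  have F1 : F 1 = U := by simp [F, G0]
  have Fpos : ∀ n : ℕ, F ((n : ℤ) + 1) = G n := by
    intro n
    simp only [F]
    rw [if_neg (by omega)]
    simp
  have Fcase : ∀ n : ℤ, n ≤ 0 ∨ ∃ m : ℕ, n = m + 1 := by
    intro n
    by_cases h : n ≤ 0
    · exact Or.inl h
    · exact Or.inr ⟨(n - 1).toNat, by omega⟩
  have FN : F ((N + 1 : ℕ) : ℤ) = ⊤ := by
    push_cast
    rw [Fpos, hN]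
  have D1 : ∀ i, ∀ T ∈ L i, T ∈ Dg F 1 := by
    intro i T hT n v hv
    rcases Fcase n with h | ⟨m, rfl⟩
    · have h3 : F n = ⊥ := by simp [F, h]
      rw [h3, Submodule.mem_bot] at hv
      rw [hv, map_zero]
      exact Submodule.zero_mem _
    · rw [Fpos] at hv
      have h4 := Fpos (m + 1)
      push_cast at h4
      rw [h4]
      exact P1 m i T hT v hv
  have D2 : ∀ i, ∀ T ∈ Stab L I μ i, T ∈ Dg F 0 := by
    intro i T hT n v hv
    rw [add_zero]
    rcases Fcase n with h | ⟨m, rfl⟩
    · have h3 : F n = ⊥ := by simp [F, h]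
      rw [h3, Submodule.mem_bot] at hv
      rw [hv, map_zero]
      exact Submodule.zero_mem _
    · rw [Fpos] at hv ⊢
      exact P2 m i T hT v hv
  have D3 : ∀ i, ∀ c ∈ I i, c - μ c • 1 ∈ Dg F (-1) := by
    intro i c hc n v hv
    rcases Fcase n with h | ⟨m, rfl⟩
    · have h3 : F n = ⊥ := by simp [F, h]
      rw [h3, Submodule.mem_bot] at hv
      rw [hv, map_zero]
      exact Submodule.zero_mem _
    · rw [Fpos] at hv
      have h3 := P3 m i c hc v hv
      have e1 : (m : ℤ) + 1 + -1 = m := by ring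
      rw [e1]
      simp only [LinearMap.sub_apply, LinearMap.smul_apply, Module.End.one_apply]
      by_cases hm : m = 0
      · rw [if_pos hm, Submodule.mem_bot] at h3
        rw [h3]
        exact Submodule.zero_mem _
      · rw [if_neg hm] at h3
        have h4 := Fpos (m - 1)
        have e2 : ((m - 1 : ℕ) : ℤ) + 1 = m := by omega
        rw [e2] at h4
        rw [h4]
        exact h3
  have key := filt_dim p F hF F0 (N + 1) FN X B par (fun s => D1 _ _ (hX s))
    (fun s => D3 _ _ (hb s)) (fun s t => D1 _ _ (hL.brk _ _ _ (hX s) _ (hX t))) ?_ ?_ ?_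
  · rw [key, F1, Fintype.prod_sum_type]
    simp [par]
  · intro s t
    have h1 : br (par s) (par t) (B s) (X t) = br (par s) (par t) (b s) (X t) := by
      simp only [B]
      rw [sub_eq_add_neg, br_add_left, ← neg_smul, br_smul_left]
      rcases z2 (par s) with h | h
      · rw [h]
        simp [br]
      · have h3 := hb s
        rw [h] at h3
        rw [hμ _ h3]
        simp
    have h3 : (if s = t then (1 : Module.End k V) else 0) =
        μ (br (par s) (par t) (b s) (X t)) • 1 := by
      rw [hd]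
      split_ifs <;> simp
    rw [h1, h3]
    exact D3 _ _ (hbr _ _ _ (hb s) _ (hX t))
  · intro s
    have h1 := hX s
    rcases z2 (par s) with h | h
    · rw [h] at h1
      rw [if_pos h]
      exact D1 0 _ (hL.pow _ h1)
    · rw [h] at h1
      rw [if_neg (by rw [h]; decide)]
      have h3 := hL.brk 1 1 _ h1 _ h1
      have h4 : X s ^ 2 = (2 : k)⁻¹ • br 1 1 (X s) (X s) := by
        simp only [br, sg_one_one, neg_smul, one_smul, sub_neg_eq_add]
        rw [← two_smul k, smul_smul, inv_mul_cancel₀ h2, one_smul, pow_two]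
      rw [h4]
      exact (Dg F 1).smul_mem _ (D1 _ _ h3)
  · intro n hn W hW hWX
    obtain ⟨m, rfl⟩ : ∃ m : ℕ, n = m + 1 := (Fcase n).resolve_left (by omega)
    have h4 := Fpos (m + 1)
    push_cast at h4
    rw [h4, GS]
    have h5 : ∀ i, ∀ T ∈ L i, ∀ w ∈ G m, T w ∈ W := by
      intro i T hT w hw
      have hwF : w ∈ F ((m : ℤ) + 1) := by rw [Fpos]; exact hw
      rcases z2 i with rfl | rfl
      · have h6 : T - ∑ s, fm 0 μ (b₀ s) T • x₀ s ∈ Stab L I μ 0 := by
          refine ⟨(L 0).sub_mem hT (Submodule.sum_mem _ fun s _ =>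
            (L 0).smul_mem _ (hx₀ s)), hc₀ T hT⟩
        have h7 := P2 m 0 _ h6 w hw
        have h8 : T w = (T - ∑ s, fm 0 μ (b₀ s) T • x₀ s) w + ∑ s, fm 0 μ (b₀ s) T • x₀ s w := by
          simp [LinearMap.sub_apply, LinearMap.sum_apply]
        rw [h8]
        refine W.add_mem (hW (by rw [Fpos]; exact h7)) (Submodule.sum_mem _ fun s _ => ?_)
        exact W.smul_mem _ (hWX (Sum.inl s) w hwF)
      · have h6 : T - ∑ s, fm 1 μ (b₁ s) T • x₁ s ∈ Stab L I μ 1 := by
          refine ⟨(L 1).sub_mem hT (Submodule.sum_mem _ fun s _ =>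
            (L 1).smul_mem _ (hx₁ s)), hc₁ T hT⟩
        have h7 := P2 m 1 _ h6 w hw
        have h8 : T w = (T - ∑ s, fm 1 μ (b₁ s) T • x₁ s) w + ∑ s, fm 1 μ (b₁ s) T • x₁ s w := by
          simp [LinearMap.sub_apply, LinearMap.sum_apply]
        rw [h8]
        refine W.add_mem (hW (by rw [Fpos]; exact h7)) (Submodule.sum_mem _ fun s _ => ?_)
        exact W.smul_mem _ (hWX (Sum.inr s) w hwF)
    rw [Fpos] at hW
    exact stp_le hW h5

end Pool.Agent.Helper54.SKW
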