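import Mathlib
import Pool.Agent.Helper54.SKW.Sys

/-!
# Supercommutative ideals of solvable Lie superalgebras of endomorphisms
-/

namespace Pool.Agent.Helper54.SKW

open Module

variable {k V : Type*} [Field k] [AddCommGroup V] [Module k V]

/-- Existence of a supercommutative ideal bigger than the scalars. -/
def HasSC (L : ZMod 2 → Submodule k (Module.End k V)) : Prop :=
  ∃ I, IsIdl L I ∧ SC I ∧ ∃ i, ¬ I i ≤ Zs k (Module.End k V) i

theorem Zs_le {L : ZMod 2 → Submodule k (Module.End k V)} (h1 : 1 ∈ L 0) (i : ZMod 2) :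
    Zs k (Module.End k V) i ≤ L i := by
  intro T hT
  rcases Zs_cases hT with rfl | ⟨rfl, c, rfl⟩
  · exact (L i).zero_mem
  · exact (L 0).smul_mem c h1

theorem one_mem_Z : (1 : Module.End k V) ∈ Zs k (Module.End k V) 0 := mem_Zs_zero.2 ⟨1, one_smul _ _⟩

theorem zsmul_mem' {W : Submodule k (Module.End k V)} {T : Module.End k V} (h : T ∈ W) (n : ℤ) :
    n • T ∈ W := W.toAddSubgroup.zsmul_mem h n

theorem hasSC_of_one (L : ZMod 2 → Submodule k (Module.End k V)) (h1 : 1 ∈ L 0) (i : ZMod 2)
    (x : Module.End k V) (hx : x ∈ L i) (hxZ : x ∉ Zs k (Module.End k V) i)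
    (hL : ∀ j, ∀ T ∈ L j, br j i T x ∈ Zs k (Module.End k V) (j + i)) (hxx : br i i x x = 0) : HasSC L := by
  have hmem : ∀ j (T : Module.End k V), T ∈ Zs k (Module.End k V) j ⊔ (if j = i then Submodule.span k {x} else ⊥) →
      ∃ z ∈ Zs k (Module.End k V) j, ∃ c : k, T = z + c • x ∧ (j ≠ i → c = 0) := by
    intro j T hT
    obtain ⟨z, hz, w, hw, rfl⟩ := Submodule.mem_sup.1 hT
    split_ifs at hw with hj
    · obtain ⟨c, rfl⟩ := Submodule.mem_span_singleton.1 hw
      exact ⟨z, hz, c, rfl, fun h => absurd hj h⟩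
    · rw [Submodule.mem_bot] at hw
      exact ⟨z, hz, 0, by rw [hw, zero_smul], fun _ => rfl⟩
  refine ⟨fun j => Zs k (Module.End k V) j ⊔ (if j = i then Submodule.span k {x} else ⊥), ⟨?_, ?_, ?_⟩, ?_, ?_⟩
  · intro j T hT
    obtain ⟨z, hz, c, rfl, hc⟩ := hmem j T hT
    by_cases hj : j = i
    · subst hj
      exact (L j).add_mem (Zs_le h1 _ hz) ((L j).smul_mem _ hx)
    · rw [hc hj, zero_smul, add_zero]
      exact Zs_le h1 _ hz
  · exact le_sup_left (a := Zs k (Module.End k V) 0) one_mem_Z
  · intro j l A hA B hB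
    obtain ⟨z, hz, c, rfl, hc⟩ := hmem l B hB
    rw [br_add_right, br_Zs_right hz, zero_add, br_smul_right]
    apply le_sup_left (a := Zs k (Module.End k V) (j + l))
    by_cases hl : l = i
    · subst hl
      exact (Zs k (Module.End k V) (j + l)).smul_mem _ (hL j A hA)
    · rw [hc hl, zero_smul]
      exact (Zs k (Module.End k V) (j + l)).zero_mem
  · intro j l A hA B hB
    obtain ⟨z, hz, c, rfl, hc⟩ := hmem j A hA
    obtain ⟨z', hz', c', rfl, hc'⟩ := hmem l B hB
    rw [br_add_right, br_Zs_right hz', zero_add, br_smul_right, br_add_left, br_Zs_left hz,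
      zero_add, br_smul_left]
    by_cases hl : l = i
    · by_cases hj : j = i
      · subst hl; subst hj
        rw [hxx]; simp
      · rw [hc hj]; simp
    · rw [hc' hl]; simp
  · refine ⟨i, fun h => hxZ (h ?_)⟩
    dsimp only
    rw [if_pos rfl]
    exact le_sup_right (a := Zs k (Module.End k V) i) (Submodule.mem_span_singleton_self x)

/-- An eigenvector modulo an invariant subspace. -/
theorem exists_eig_mod [IsAlgClosed k] {E : Type*} [AddCommGroup E] [Module k E]
    [FiniteDimensional k E] (M N : Submodule k E) (hNM : ¬ M ≤ N) (f : Module.End k E)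
    (hM : ∀ x ∈ M, f x ∈ M) (hN : ∀ x ∈ N, f x ∈ N) :
    ∃ c : k, ∃ x ∈ M, x ∉ N ∧ f x - c • x ∈ N := by
  let N' : Submodule k M := N.comap M.subtype
  let g : Module.End k M := f.restrict hM
  have hg : N' ≤ N'.comap g := fun x hx => hN _ hx
  have hnt : Nontrivial (M ⧸ N') := by
    rw [Submodule.Quotient.nontrivial_iff]
    intro htop
    apply hNM
    intro x hx
    have : (⟨x, hx⟩ : M) ∈ N' := htop ▸ trivial
    exact this
  obtain ⟨c, hc⟩ := Module.End.exists_eigenvalue (N'.mapQ N' g hg)
  obtain ⟨u, hu⟩ := hc.exists_hasEigenvector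
  obtain ⟨x, rfl⟩ := Submodule.Quotient.mk_surjective N' u
  refine ⟨c, x, x.2, ?_, ?_⟩
  · intro hxN
    exact hu.2 ((Submodule.Quotient.mk_eq_zero N').2 hxN)
  · have h1 := hu.apply_eq_smul
    rw [Submodule.mapQ_apply, ← Submodule.Quotient.mk_smul, Submodule.Quotient.eq] at h1
    exact h1

variable [FiniteDimensional k V]

theorem lemmaX [IsAlgClosed k] (p : ℕ) [hp : Fact p.Prime] [CharP k p] (h2 : (2 : k) ≠ 0)
    [Nontrivial V]
    {π : Module.End k V} {L : ZMod 2 → Submodule k (Module.End k V)} (hL : IsSys p π L)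
    (hs : IsSolv L) (hn : ∃ i, ¬ L i ≤ Zs k (Module.End k V) i) :
    HasSC L ∨ ∃ y ∈ L 1, ∃ c : k, c ≠ 0 ∧ y * y = c • 1 ∧ ∀ i, ∀ x ∈ L i, br i 1 x y ∈ Zs k (Module.End k V) (i + 1) := by
  classical
  obtain ⟨N, S, hS0, hSN, hSL, hSS, hLS⟩ := hs
  have h1L := hL.one
  -- small helpers
  have swapZ : ∀ i j (x y : Module.End k V), br i j x y ∈ Zs k (Module.End k V) (i + j) → br j i y x ∈ Zs k (Module.End k V) (j + i) := by
    intro i j x y h
    rw [br_symm, add_comm]
    exact (Zs k (Module.End k V) (i + j)).neg_mem (zsmul_mem' h _)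
  -- ideals with bracket in the scalars
  let Q : (ZMod 2 → Submodule k (Module.End k V)) → Prop := fun I => IsIdl L I ∧
    (∀ i j, ∀ A ∈ I i, ∀ B ∈ I j, br i j A B ∈ Zs k (Module.End k V) (i + j)) ∧ ∃ i, ¬ I i ≤ Zs k (Module.End k V) i
  have hQ : ∃ I, Q I := by
    have hex : ∃ n, ∀ i, S n i ≤ Zs k (Module.End k V) i := ⟨N, fun i => by rw [hSN i]; exact bot_le⟩
    have hm0 : Nat.find hex ≠ 0 := by
      intro h0
      have := Nat.find_spec hex
      rw [h0, hS0] at this
      obtain ⟨i, hi⟩ := hn
      exact hi (this i)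
    obtain ⟨m, hm⟩ := Nat.exists_eq_succ_of_ne_zero hm0
    have hm1 : ∀ i, S (m + 1) i ≤ Zs k (Module.End k V) i := by
      have := Nat.find_spec hex
      rwa [hm] at this
    have hm2 : ¬ ∀ i, S m i ≤ Zs k (Module.End k V) i := Nat.find_min hex (by rw [hm]; exact Nat.lt_succ_self m)
    push Not at hm2
    obtain ⟨i, hi⟩ := hm2
    refine ⟨fun i => Zs k (Module.End k V) i ⊔ S m i, ⟨fun j => sup_le (Zs_le h1L j) (hSL m j),
      le_sup_left (a := Zs k (Module.End k V) 0) one_mem_Z, ?_⟩, ?_, i,
      fun h => hi (le_sup_right.trans h)⟩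
    · intro j l A hA B hB
      obtain ⟨z, hz, w, hw, rfl⟩ := Submodule.mem_sup.1 hB
      rw [br_add_right, br_Zs_right hz, zero_add]
      exact le_sup_right (a := Zs k (Module.End k V) (j + l)) (hLS m j l A hA w hw)
    · intro j l A hA B hB
      obtain ⟨z, hz, w, hw, rfl⟩ := Submodule.mem_sup.1 hB
      obtain ⟨z', hz', w', hw', rfl⟩ := Submodule.mem_sup.1 hA
      rw [br_add_right, br_Zs_right hz, zero_add, br_add_left, br_Zs_left hz', zero_add]
      exact hm1 _ (hSS m j l w' hw' w hw)
  have hQn : ∃ n, ∃ I, Q I ∧ finrank k (I 0) + finrank k (I 1) = n := by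
    obtain ⟨I, hI⟩ := hQ
    exact ⟨_, I, hI, rfl⟩
  obtain ⟨I, ⟨hI, hIZ, hIn⟩, hIf⟩ := Nat.find_spec hQn
  have hmin : ∀ I' : ZMod 2 → Submodule k (Module.End k V), IsIdl L I' → (∀ i, I' i ≤ I i) →
      (∃ i, ¬ I' i ≤ Zs k (Module.End k V) i) → ∀ i, I i ≤ I' i := by
    intro I' h1 h2 h3
    have h4 := Nat.find_min' hQn ⟨I', ⟨h1, fun i j A hA B hB => hIZ i j A (h2 i hA) B (h2 j hB),
      h3⟩, rfl⟩
    rw [← hIf] at h4
    have h5 := Submodule.finrank_mono (h2 0)
    have h6 := Submodule.finrank_mono (h2 1)
    intro i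
    rcases z2 i with rfl | rfl
    · exact (Submodule.eq_of_le_of_finrank_le (h2 0) (by omega)).ge
    · exact (Submodule.eq_of_le_of_finrank_le (h2 1) (by omega)).ge
  -- the radical of `I`
  let R : ZMod 2 → Submodule k (Module.End k V) := fun i =>
    { carrier := {x | x ∈ I i ∧ ∀ j, ∀ n ∈ I j, br i j x n = 0}
      add_mem' := by
        rintro x y ⟨hx, hx'⟩ ⟨hy, hy'⟩
        refine ⟨(I i).add_mem hx hy, fun j n hn => ?_⟩
        rw [br_add_left, hx' j n hn, hy' j n hn, add_zero]
      zero_mem' := ⟨(I i).zero_mem, fun j n _ => br_zero_left _ _ _⟩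
      smul_mem' := by
        rintro c x ⟨hx, hx'⟩
        refine ⟨(I i).smul_mem _ hx, fun j n hn => ?_⟩
        rw [br_smul_left, hx' j n hn, smul_zero] }
  by_cases hR : ∃ i, ¬ R i ≤ Zs k (Module.End k V) i
  · left
    refine ⟨R, ⟨fun i x hx => hI.le i hx.1, ⟨hI.one, fun j n _ => ?_⟩, ?_⟩, ?_, hR⟩
    · exact br_Zs_left one_mem_Z n
    · intro i j A hA B hB
      refine ⟨hI.brk i j A hA B hB.1, fun l n hn => ?_⟩
      rw [br_jacobi, hB.2 l n hn, hB.2 _ _ (hI.brk i l A hA n hn)]
      simp
    · intro i j A hA B hB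
      exact hA.2 j B hB.1
  · push Not at hR
    -- a pair with nonzero bracket
    obtain ⟨i₁, x₁, hx₁, j₁, y₁, hy₁, hxy₁⟩ : ∃ i, ∃ x ∈ I i, ∃ j, ∃ y ∈ I j, br i j x y ≠ 0 := by
      obtain ⟨i, hi⟩ := hIn
      by_contra hcon
      push Not at hcon
      exact hi fun x hx => hR i ⟨hx, fun j n hn => hcon i x hx j n hn⟩
    -- `K`
    let K : ZMod 2 → Submodule k (Module.End k V) := fun i =>
      { carrier := {x | x ∈ L i ∧ ∀ j, ∀ n ∈ I j, br i j x n ∈ Zs k (Module.End k V) (i + j)}
        add_mem' := by
          rintro x y ⟨hx, hx'⟩ ⟨hy, hy'⟩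
          refine ⟨(L i).add_mem hx hy, fun j n hn => ?_⟩
          rw [br_add_left]
          exact (Zs k (Module.End k V) (i + j)).add_mem (hx' j n hn) (hy' j n hn)
        zero_mem' := ⟨(L i).zero_mem, fun j n _ => by
          rw [br_zero_left]; exact (Zs k (Module.End k V) (i + j)).zero_mem⟩
        smul_mem' := by
          rintro c x ⟨hx, hx'⟩
          refine ⟨(L i).smul_mem _ hx, fun j n hn => ?_⟩
          rw [br_smul_left]
          exact (Zs k (Module.End k V) (i + j)).smul_mem _ (hx' j n hn) }
    have hKid : ∀ i j, ∀ A ∈ L i, ∀ B ∈ K j, br i j A B ∈ K (i + j) := by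
      intro i j A hA B hB
      refine ⟨hL.brk i j A hA B hB.1, fun l n hn => ?_⟩
      rw [br_jacobi, br_Zs_right (hB.2 l n hn), zero_sub]
      have h3 := hB.2 _ _ (hI.brk i l A hA n hn)
      have e1 : j + (i + l) = i + j + l := by ring
      rw [e1] at h3
      exact (Zs k (Module.End k V) (i + j + l)).neg_mem (zsmul_mem' h3 _)
    have hK : ∀ i, L i ≤ K i := by
      by_contra hKL
      push Not at hKL
      -- the last term of the chain not in `K`
      have hex : ∃ n, ∀ i, S n i ≤ K i := ⟨N, fun i => by rw [hSN i]; exact bot_le⟩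
      have hm0 : Nat.find hex ≠ 0 := by
        intro h0
        have := Nat.find_spec hex
        rw [h0, hS0] at this
        obtain ⟨i, hi⟩ := hKL
        exact hi (this i)
      obtain ⟨m, hm⟩ := Nat.exists_eq_succ_of_ne_zero hm0
      have hm1 : ∀ i, S (m + 1) i ≤ K i := by
        have := Nat.find_spec hex
        rwa [hm] at this
      have hm2 : ¬ ∀ i, S m i ≤ K i := Nat.find_min hex (by rw [hm]; exact Nat.lt_succ_self m)
      have hJK : ∀ i j, ∀ A ∈ S m i, ∀ B ∈ S m j, br i j A B ∈ K (i + j) :=
        fun i j A hA B hB => hm1 _ (hSS m i j A hA B hB)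
      -- `a ^ p ∈ K`
      have hap : ∀ a ∈ S m 0, a ^ p ∈ K 0 := by
        intro a ha
        have haL : a ∈ L 0 := hSL m 0 ha
        have hapL : a ^ p ∈ L 0 := hL.pow a haL
        -- `[a ^ p, l] ∈ K`
        have h3 : ∀ j, ∀ l ∈ L j, br 0 j (a ^ p) l ∈ K j := by
          intro j l hl
          have h4 := ad_pow_char (k := k) p a l
          have h5 : br 0 j (a ^ p) l = a ^ p * l - l * a ^ p := by simp [br]
          rw [h5, ← h4]
          obtain ⟨q, hq⟩ : ∃ q, p = q + 2 := ⟨p - 2, by have := hp.out.two_le; omega⟩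
          have hstep : ∀ T : Module.End k V,
              (LinearMap.mulLeft k a - LinearMap.mulRight k a) T = br 0 j a T := by
            intro T; simp [br]
          have h6 : ∀ n, ((LinearMap.mulLeft k a - LinearMap.mulRight k a) ^ (n + 2)) l ∈
              K j := by
            intro n
            induction n with
            | zero =>
              rw [zero_add, pow_two, Module.End.mul_apply, hstep, hstep]
              have h7 := hLS m j 0 l hl a ha
              rw [add_zero] at h7
              have h8 : br 0 j a l ∈ S m j := by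
                rw [br_symm]
                exact (S m j).neg_mem (zsmul_mem' h7 _)
              have h9 := hJK 0 j a ha _ h8
              rwa [zero_add] at h9
            | succ n ih =>
              rw [show n + 1 + 2 = (n + 2) + 1 by ring, pow_succ', Module.End.mul_apply, hstep]
              have h7 := hKid 0 j a haL _ ih
              rwa [zero_add] at h7
          rw [hq]
          exact h6 q
        -- eigenvalue of `ad (a ^ p)`
        obtain ⟨i₀, hi₀⟩ := hIn
        let f : Module.End k (Module.End k V) :=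
          LinearMap.mulLeft k (a ^ p) - LinearMap.mulRight k (a ^ p)
        have hf : ∀ j T, f T = br 0 j (a ^ p) T := by
          intro j T; simp [f, br]
        obtain ⟨c, x, hxI, hxZ, hxc⟩ := exists_eig_mod (I i₀) (Zs k (Module.End k V) i₀) hi₀ f (by
          intro x hx
          rw [hf i₀]
          have := hI.brk 0 i₀ _ hapL x hx
          rwa [zero_add] at this) (by
          intro x hx
          rw [hf i₀, br_Zs_right hx]
          exact (Zs k (Module.End k V) i₀).zero_mem)
        let E : ZMod 2 → Submodule k (Module.End k V) := fun i =>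
          { carrier := {x | x ∈ I i ∧ f x - c • x ∈ Zs k (Module.End k V) i}
            add_mem' := by
              rintro x y ⟨hx, hx'⟩ ⟨hy, hy'⟩
              refine ⟨(I i).add_mem hx hy, ?_⟩
              have : f (x + y) - c • (x + y) = (f x - c • x) + (f y - c • y) := by
                rw [map_add, smul_add]; abel
              rw [this]
              exact (Zs k (Module.End k V) i).add_mem hx' hy'
            zero_mem' := ⟨(I i).zero_mem, by simp⟩
            smul_mem' := by
              rintro d x ⟨hx, hx'⟩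
              refine ⟨(I i).smul_mem _ hx, ?_⟩
              have : f (d • x) - c • (d • x) = d • (f x - c • x) := by
                rw [map_smul, smul_comm c d, smul_sub]
              rw [this]
              exact (Zs k (Module.End k V) i).smul_mem _ hx' }
        have hEid : IsIdl L E := by
          refine ⟨fun i x hx => hI.le i hx.1, ⟨hI.one, ?_⟩, ?_⟩
          · have : f 1 = 0 := by simp [f]
            rw [this, zero_sub]
            exact (Zs k (Module.End k V) 0).neg_mem (mem_Zs_zero.2 ⟨c, rfl⟩)
          · intro i j A hA B hB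
            refine ⟨hI.brk i j A hA B hB.1, ?_⟩
            rw [hf (i + j)]
            have h7 := br_leib 0 i j (a ^ p) A B
            rw [sg_zero_left, one_smul, zero_add, zero_add] at h7
            have h8 : br 0 j (a ^ p) B = (f B - c • B) + c • B := by
              rw [hf j]; abel
            rw [h7, h8, br_add_right, br_Zs_right hB.2, zero_add, br_smul_right,
              add_sub_cancel_right]
            exact (h3 i A hA).2 j B hB.1
        have hEI := hmin E hEid (fun i x hx => hx.1) ⟨i₀, fun h => hxZ (h ⟨hxI, hxc⟩)⟩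
        have hc0 : c = 0 := by
          have h7 := (hEI i₁ hx₁).2
          have h8 := (hEI j₁ hy₁).2
          rw [hf i₁] at h7
          rw [hf j₁] at h8
          have h9 := br_leib 0 i₁ j₁ (a ^ p) x₁ y₁
          rw [sg_zero_left, one_smul, zero_add, zero_add, br_Zs_right (hIZ i₁ j₁ x₁ hx₁ y₁ hy₁)]
            at h9
          have e1 : br 0 i₁ (a ^ p) x₁ = (br 0 i₁ (a ^ p) x₁ - c • x₁) + c • x₁ := by abel
          have e2 : br 0 j₁ (a ^ p) y₁ = (br 0 j₁ (a ^ p) y₁ - c • y₁) + c • y₁ := by abel
          rw [e1, e2, br_add_left, br_add_right, br_Zs_left h7, br_Zs_right h8, zero_add,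
            zero_add, br_smul_left, br_smul_right, ← add_smul, eq_comm] at h9
          have h10 := (smul_eq_zero.1 h9).resolve_right hxy₁
          rw [← two_mul] at h10
          exact (mul_eq_zero.1 h10).resolve_left h2
        refine ⟨hapL, fun j n hn => ?_⟩
        have h7 := (hEI j hn).2
        rw [hf j, hc0, zero_smul, sub_zero] at h7
        rw [zero_add]
        exact h7
      -- minimal stable pair
      let P : (ZMod 2 → Submodule k (Module.End k V)) → Prop := fun W => (∀ i, W i ≤ I i) ∧
        (∀ i j, ∀ a ∈ S m i, ∀ w ∈ W j, br i j a w ∈ W (i + j)) ∧ ∃ i, ¬ W i ≤ Zs k (Module.End k V) i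
      have hPn : ∃ n, ∃ W, P W ∧ finrank k (W 0) + finrank k (W 1) = n :=
        ⟨_, I, ⟨fun i => le_rfl, fun i j a ha w hw => hI.brk i j a (hSL m i ha) w hw, hIn⟩, rfl⟩
      obtain ⟨W, ⟨hWI, hWS, hWn⟩, hWf⟩ := Nat.find_spec hPn
      have hWmin : ∀ W' : ZMod 2 → Submodule k (Module.End k V), (∀ i, W' i ≤ W i) →
          (∀ i j, ∀ a ∈ S m i, ∀ w ∈ W' j, br i j a w ∈ W' (i + j)) → (∃ i, ¬ W' i ≤ Zs k (Module.End k V) i) →
          ∀ i, W i ≤ W' i := by
        intro W' h3 h4 h5
        have h6 := Nat.find_min' hPn ⟨W', ⟨fun i => (h3 i).trans (hWI i), h4, h5⟩, rfl⟩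
        rw [← hWf] at h6
        have h7 := Submodule.finrank_mono (h3 0)
        have h8 := Submodule.finrank_mono (h3 1)
        intro i
        rcases z2 i with rfl | rfl
        · exact (Submodule.eq_of_le_of_finrank_le (h3 0) (by omega)).ge
        · exact (Submodule.eq_of_le_of_finrank_le (h3 1) (by omega)).ge
      have hkill : ∀ i, ∀ a ∈ S m i, ∀ j, ∀ w ∈ W j, br i j a w ∈ Zs k (Module.End k V) (i + j) := by
        intro i a ha
        let W' : ZMod 2 → Submodule k (Module.End k V) := fun j =>
          { carrier := {w | w ∈ W j ∧ br i j a w ∈ Zs k (Module.End k V) (i + j)}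
            add_mem' := by
              rintro x y ⟨hx, hx'⟩ ⟨hy, hy'⟩
              refine ⟨(W j).add_mem hx hy, ?_⟩
              rw [br_add_right]
              exact (Zs k (Module.End k V) (i + j)).add_mem hx' hy'
            zero_mem' := ⟨(W j).zero_mem, by rw [br_zero_right]; exact (Zs k (Module.End k V) (i + j)).zero_mem⟩
            smul_mem' := by
              rintro c x ⟨hx, hx'⟩
              refine ⟨(W j).smul_mem _ hx, ?_⟩
              rw [br_smul_right]
              exact (Zs k (Module.End k V) (i + j)).smul_mem _ hx' }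
        have hst : ∀ i' j, ∀ c ∈ S m i', ∀ w ∈ W' j, br i' j c w ∈ W' (i' + j) := by
          intro l j c hc w hw
          refine ⟨hWS l j c hc w hw.1, ?_⟩
          rw [br_leib, br_Zs_right hw.2, smul_zero, add_zero]
          have h3 := (hJK i l a ha c hc).2 j w (hWI j hw.1)
          rwa [add_assoc] at h3
        have hnt : ∃ j, ¬ W' j ≤ Zs k (Module.End k V) j := by
          obtain ⟨j, hj⟩ := hWn
          obtain ⟨w, hw, hwZ⟩ := SetLike.not_le_iff_exists.1 hj
          rcases z2 i with rfl | rfl
          · -- even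
            have hstep : ∀ T : Module.End k V,
                (LinearMap.mulLeft k a - LinearMap.mulRight k a) T = br 0 j a T := by
              intro T; simp [br]
            have hexm : ∃ n, ((LinearMap.mulLeft k a - LinearMap.mulRight k a) ^ n) w ∈ Zs k (Module.End k V) j := by
              refine ⟨p, ?_⟩
              rw [ad_pow_char]
              have h3 := (hap a ha).2 j w (hWI j hw)
              rw [zero_add] at h3
              simpa [br] using h3
            have h0 : Nat.find hexm ≠ 0 := by
              intro h0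
              have := Nat.find_spec hexm
              rw [h0, pow_zero, Module.End.one_apply] at this
              exact hwZ this
            obtain ⟨q, hq⟩ := Nat.exists_eq_succ_of_ne_zero h0
            have h3 := Nat.find_spec hexm
            rw [hq, Nat.succ_eq_add_one, pow_succ', Module.End.mul_apply, hstep] at h3
            have h4 := Nat.find_min hexm (m := q) (by rw [hq]; exact Nat.lt_succ_self q)
            have h5 : ∀ n, ((LinearMap.mulLeft k a - LinearMap.mulRight k a) ^ n) w ∈ W j := by
              intro n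
              induction n with
              | zero => simpa using hw
              | succ n ih =>
                rw [pow_succ', Module.End.mul_apply, hstep]
                have := hWS 0 j a ha _ ih
                rwa [zero_add] at this
            refine ⟨j, fun h => h4 (h ⟨h5 q, ?_⟩)⟩
            rw [zero_add]
            exact h3
          · -- odd
            by_cases hwa : br 1 j a w ∈ Zs k (Module.End k V) (1 + j)
            · exact ⟨j, fun h => hwZ (h ⟨hw, hwa⟩)⟩
            · refine ⟨1 + j, fun h => hwa (h ⟨hWS 1 j a ha w hw, ?_⟩)⟩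
              have h3 := (hJK 1 1 a ha a ha).2 j w (hWI j hw)
              have h4 := br_leib 1 1 j a a w
              rw [sg_one_one, neg_smul, one_smul, ← sub_eq_add_neg, eq_sub_iff_add_eq,
                ← two_smul k] at h4
              have h5 : br 1 (1 + j) a (br 1 j a w) =
                  (2 : k)⁻¹ • br (1 + 1) j (br 1 1 a a) w := by
                rw [← h4, smul_smul, inv_mul_cancel₀ h2, one_smul]
              rw [h5]
              have h6 := (Zs k (Module.End k V) (1 + 1 + j)).smul_mem (2 : k)⁻¹ h3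
              rwa [add_assoc] at h6
        have h3 := hWmin W' (fun j w hw => hw.1) hst hnt
        exact fun j w hw => (h3 j hw).2
      let T : ZMod 2 → Submodule k (Module.End k V) := fun i =>
        { carrier := {n | n ∈ I i ∧ ∀ j, ∀ a ∈ S m j, br j i a n ∈ Zs k (Module.End k V) (j + i)}
          add_mem' := by
            rintro x y ⟨hx, hx'⟩ ⟨hy, hy'⟩
            refine ⟨(I i).add_mem hx hy, fun j a ha => ?_⟩
            rw [br_add_right]
            exact (Zs k (Module.End k V) (j + i)).add_mem (hx' j a ha) (hy' j a ha)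
          zero_mem' := ⟨(I i).zero_mem, fun j a _ => by
            rw [br_zero_right]; exact (Zs k (Module.End k V) (j + i)).zero_mem⟩
          smul_mem' := by
            rintro c x ⟨hx, hx'⟩
            refine ⟨(I i).smul_mem _ hx, fun j a ha => ?_⟩
            rw [br_smul_right]
            exact (Zs k (Module.End k V) (j + i)).smul_mem _ (hx' j a ha) }
      have hTid : IsIdl L T := by
        refine ⟨fun i x hx => hI.le i hx.1, ⟨hI.one, fun j a _ => ?_⟩, ?_⟩
        · rw [br_Zs_right one_mem_Z]
          exact (Zs k (Module.End k V) (j + 0)).zero_mem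
        · intro i j A hA B hB
          refine ⟨hI.brk i j A hA B hB.1, fun l a ha => ?_⟩
          rw [br_leib, br_Zs_right (hB.2 l a ha), smul_zero, add_zero]
          have h3 : br l i a A ∈ S m (l + i) := by
            rw [br_symm, add_comm]
            exact (S m (i + l)).neg_mem (zsmul_mem' (hLS m i l A hA a ha) _)
          have h4 := hB.2 _ _ h3
          rwa [add_assoc] at h4
      have hTI := hmin T hTid (fun i x hx => hx.1) (by
        obtain ⟨i, hi⟩ := hWn
        exact ⟨i, fun h => hi fun w hw => h ⟨hWI i hw, fun j a ha => hkill j a ha i w hw⟩⟩)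
      apply hm2
      intro i a ha
      exact ⟨hSL m i ha, fun j n hn => (hTI j hn).2 i a ha⟩
    -- now `[L, I] ⊆ Z`
    have hLI : ∀ i j, ∀ A ∈ L i, ∀ B ∈ I j, br i j A B ∈ Zs k (Module.End k V) (i + j) :=
      fun i j A hA B hB => (hK i hA).2 j B hB
    by_cases hI0 : I 0 ≤ Zs k (Module.End k V) 0
    · have hI1 : ¬ I 1 ≤ Zs k (Module.End k V) 1 := by
        obtain ⟨i, hi⟩ := hIn
        rcases z2 i with rfl | rfl
        · exact absurd hI0 hi
        · exact hi
      obtain ⟨y, hy, hyZ⟩ := SetLike.not_le_iff_exists.1 hI1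
      have hyy : br 1 1 y y = (2 : k) • (y * y) := by
        simp only [br, sg_one_one, neg_smul, one_smul, sub_neg_eq_add]
        rw [two_smul]
      obtain ⟨c, hc⟩ := mem_Zs_zero.1 (hIZ 1 1 y hy y hy)
      have hyc : y * y = ((2 : k)⁻¹ * c) • 1 := by
        rw [mul_smul, hc, hyy, smul_smul, inv_mul_cancel₀ h2, one_smul]
      by_cases hc0 : (2 : k)⁻¹ * c = 0
      · left
        apply hasSC_of_one L h1L 1 y (hI.le 1 hy) hyZ (fun j T hT => hLI j 1 T hT y hy)
        rw [hyy, hyc, hc0]
        simp
      · right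
        exact ⟨y, hI.le 1 hy, _, hc0, hyc, fun i x hx => hLI i 1 x hx y hy⟩
    · left
      obtain ⟨x, hx, hxZ⟩ := SetLike.not_le_iff_exists.1 hI0
      apply hasSC_of_one L h1L 0 x (hI.le 0 hx) hxZ (fun j T hT => hLI j 0 T hT x hx)
      simp [br]

end Pool.Agent.Helper54.SKW
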