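import Mathlib
import Pool.Agent.Helper54.SKW.Struct

/-!
# Solvable systems without supercommutative ideals
-/

namespace Pool.Agent.Helper54.SKW

open Module

variable {k V : Type*} [Field k] [AddCommGroup V] [Module k V]

theorem lemmaY [FiniteDimensional k V] [IsAlgClosed k] (p : ℕ) [hp : Fact p.Prime] [CharP k p]
    (h2 : (2 : k) ≠ 0) [Nontrivial V]
    {π : Module.End k V} {L : ZMod 2 → Submodule k (Module.End k V)} (hL : IsSys p π L)
    (hs : IsSolv L) (hno : ¬ HasSC L) :
    (∀ i, L i ≤ Zs k (Module.End k V) i) ∨ ∃ y ∈ L 1, ∃ c : k, c ≠ 0 ∧ y * y = c • 1 ∧ L 0 ≤ Zs k (Module.End k V) 0 ∧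
      L 1 ≤ Submodule.span k {y} := by
  by_cases hn : ∃ i, ¬ L i ≤ Zs k (Module.End k V) i
  swap
  · left
    push Not at hn
    exact hn
  right
  have h1L := hL.one
  obtain ⟨y, hy, c, hc0, hyc, hLy⟩ := (lemmaX p h2 hL hs hn).resolve_left hno
  -- the centraliser of `y`
  let H : ZMod 2 → Submodule k (Module.End k V) := fun i =>
    { carrier := {x | x ∈ L i ∧ br i 1 x y = 0}
      add_mem' := by
        rintro x x' ⟨hx, hx'⟩ ⟨hy, hy'⟩
        refine ⟨(L i).add_mem hx hy, ?_⟩
        rw [br_add_left, hx', hy', add_zero]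
      zero_mem' := ⟨(L i).zero_mem, br_zero_left _ _ _⟩
      smul_mem' := by
        rintro c x ⟨hx, hx'⟩
        refine ⟨(L i).smul_mem _ hx, ?_⟩
        rw [br_smul_left, hx', smul_zero] }
  have hHL : ∀ i, H i ≤ L i := fun i x hx => hx.1
  have hH0 : ∀ x ∈ L 0, x ∈ H 0 := by
    intro x hx
    refine ⟨hx, ?_⟩
    have := hLy 0 x hx
    rw [zero_add] at this
    exact mem_Zs_one.1 this
  have hyy : br 1 1 y y = (2 * c) • 1 := by
    simp only [br, sg_one_one, neg_smul, one_smul, sub_neg_eq_add]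
    rw [hyc, ← two_smul k, smul_smul]
  have h2c : 2 * c ≠ 0 := mul_ne_zero h2 hc0
  have hH1 : ∀ x ∈ L 1, ∃ x' ∈ H 1, ∃ s : k, x = x' + s • y := by
    intro x hx
    obtain ⟨e, he⟩ := mem_Zs_zero.1 (hLy 1 x hx)
    refine ⟨x - (e / (2 * c)) • y, ⟨(L 1).sub_mem hx ((L 1).smul_mem _ hy), ?_⟩,
      e / (2 * c), by abel⟩
    rw [sub_eq_add_neg, ← neg_smul, br_add_left, br_smul_left, ← he, hyy, smul_smul, ← add_smul]
    have : e + -(e / (2 * c)) * (2 * c) = 0 := by field_simp; ring
    rw [this, zero_smul]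
  have hH : IsSys p π H := by
    refine ⟨hL.pp, ⟨h1L, br_Zs_left one_mem_Z y⟩, fun i T hT => hL.deg i T hT.1, ?_, ?_⟩
    · intro i j A hA B hB
      refine ⟨hL.brk i j A hA.1 B hB.1, ?_⟩
      rw [br_jacobi, hA.2, hB.2]
      simp
    · intro T hT
      refine ⟨hL.pow T hT.1, ?_⟩
      have h3 := hT.2
      simp only [br, sg_zero_left, one_smul, sub_eq_zero] at h3 ⊢
      exact (Commute.pow_left (show Commute T y from h3) p)
  have hHs : IsSolv H := by
    obtain ⟨N, S, hS0, hSN, hSL, hSS, hLS⟩ := hs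
    refine ⟨N, fun n i => S n i ⊓ H i, ?_, ?_, ?_, ?_, ?_⟩
    · funext i
      dsimp only
      rw [hS0]
      exact inf_eq_right.2 (hHL i)
    · intro i
      dsimp only
      rw [hSN i, bot_inf_eq]
    · intro n i
      exact inf_le_right
    · intro n i j A hA B hB
      exact ⟨hSS n i j A hA.1 B hB.1, hH.brk i j A hA.2 B hB.2⟩
    · intro n i j A hA B hB
      exact ⟨hLS n i j A (hHL i hA) B hB.1, hH.brk i j A hA B hB.2⟩
  by_cases hHn : ∃ i, ¬ H i ≤ Zs k (Module.End k V) i
  · exfalso
    apply hno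
    rcases lemmaX p h2 hH hHs hHn with ⟨I, hI, hsc, hIn⟩ | ⟨y', hy', c', hc0', hyc', hLy'⟩
    · refine ⟨I, ⟨fun i => (hI.le i).trans (hHL i), hI.one, ?_⟩, hsc, hIn⟩
      intro i j A hA B hB
      rcases z2 i with rfl | rfl
      · exact hI.brk 0 j A (hH0 A hA) B hB
      · obtain ⟨A', hA', s, rfl⟩ := hH1 A hA
        rw [br_add_left, br_smul_left, br_symm 1 j y B, (hI.le j hB).2]
        simp only [smul_zero, neg_zero, add_zero]
        exact hI.brk 1 j A' hA' B hB
    · -- an isotropic combination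
      obtain ⟨s, hs2⟩ := IsAlgClosed.exists_pow_nat_eq (-c / c') (n := 2) (by norm_num)
      have hyy' : y' * y + y * y' = 0 := by
        have := hy'.2
        simpa [br] using this
      have hz : (y + s • y') * (y + s • y') = 0 := by
        have h3 : (y + s • y') * (y + s • y') =
            y * y + (s ^ 2) • (y' * y') + s • (y' * y + y * y') := by
          simp only [add_mul, mul_add, smul_mul_assoc, mul_smul_comm, smul_smul, smul_add, pow_two]
          abel
        rw [h3, hyy', hyc, hyc', smul_smul, hs2, smul_zero, add_zero, ← add_smul]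
        have : c + -c / c' * c' = 0 := by field_simp; ring
        rw [this, zero_smul]
      apply hasSC_of_one L h1L 1 (y + s • y') ((L 1).add_mem hy ((L 1).smul_mem _ hy'.1))
      · intro h3
        rw [mem_Zs_one] at h3
        have h4 : br 1 1 (y + s • y') y = (2 * c) • (1 : Module.End k V) := by
          rw [br_add_left, br_smul_left, hy'.2, smul_zero, add_zero, hyy]
        rw [h3, br_zero_left, eq_comm, smul_eq_zero] at h4
        rcases h4 with h4 | h4
        · exact h2c h4
        · exact one_ne_zero h4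
      · intro j T hT
        rw [br_add_right, br_smul_right]
        refine (Zs k (Module.End k V) (j + 1)).add_mem (hLy j T hT) ((Zs k (Module.End k V) (j + 1)).smul_mem _ ?_)
        rcases z2 j with rfl | rfl
        · exact hLy' 0 T (hH0 T hT)
        · obtain ⟨T', hT', t, rfl⟩ := hH1 T hT
          rw [br_add_left, br_smul_left, br_symm 1 1 y y', hy'.2]
          simp only [smul_zero, neg_zero, add_zero]
          exact hLy' 1 T' hT'
      · simp only [br, sg_one_one, neg_smul, one_smul, sub_neg_eq_add]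
        rw [hz, add_zero]
  · push Not at hHn
    refine ⟨y, hy, c, hc0, hyc, fun x hx => hHn 0 (hH0 x hx), ?_⟩
    intro x hx
    obtain ⟨x', hx', s, rfl⟩ := hH1 x hx
    rw [mem_Zs_one.1 (hHn 1 hx'), zero_add]
    exact Submodule.smul_mem _ _ (Submodule.mem_span_singleton_self y)

end Pool.Agent.Helper54.SKW
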