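import Mathlib
import Pool.Agent.Helper54.SKW.CaseA
import Pool.Agent.Helper54.SKW.Term

/-!
# Irreducible solvable systems: dimension formula
-/

namespace Pool.Agent.Helper54.SKW

open Module

universe u v

section Small

variable {k E : Type*} [Field k] [AddCommGroup E] [Module k E]

theorem rk_zero (φ : E →ₗ[k] E →ₗ[k] k) (A : Submodule k E)
    (h : ∀ x ∈ A, ∀ y ∈ A, φ x y = 0) : rk φ A = 0 := by
  have : φ.domRestrict₁₂ A A = 0 := by
    ext x y
    exact h x x.2 y y.2
  rw [rk, this, LinearMap.range_zero, finrank_bot]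

theorem rk_one [FiniteDimensional k E] (φ : E →ₗ[k] E →ₗ[k] k) (A : Submodule k E) (y : E)
    (hy : y ∈ A) (hA : A ≤ Submodule.span k {y}) (hne : φ y y ≠ 0) : rk φ A = 1 := by
  have hy0 : y ≠ 0 := by
    rintro rfl
    exact hne (by simp)
  have hAe : A = Submodule.span k {y} :=
    le_antisymm hA (by rw [Submodule.span_singleton_le_iff_mem]; exact hy)
  have h1 := rk_add_ker φ A
  have h2 : LinearMap.ker (φ.domRestrict₁₂ A A) = ⊥ := by
    rw [eq_bot_iff]
    rintro ⟨x, hx⟩ h3
    obtain ⟨c, rfl⟩ := Submodule.mem_span_singleton.1 (hA hx)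
    have h4 := LinearMap.congr_fun (LinearMap.mem_ker.1 h3) ⟨y, hy⟩
    have h5 : c * φ y y = 0 := by
      have : φ (c • y) y = 0 := h4
      rwa [LinearMap.map_smul₂, smul_eq_mul] at this
    have h6 := (mul_eq_zero.1 h5).resolve_right hne
    rw [Submodule.mem_bot]
    apply Subtype.ext
    simp [h6]
  rw [h2, finrank_bot, add_zero] at h1
  rw [h1, hAe, finrank_span_singleton hy0]

end Small

section Restr

variable {k : Type*} {V : Type*} [Field k] [AddCommGroup V] [Module k V]

theorem exists_restr (U : Submodule k V) : ∃ R : Module.End k V →ₗ[k] Module.End k U,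
    (∀ T : Module.End k V, (∀ u ∈ U, T u ∈ U) → ∀ u : U, (R T u : V) = T u) := by
  obtain ⟨q, hq⟩ := LinearMap.exists_leftInverse_of_injective U.subtype (Submodule.ker_subtype _)
  refine ⟨
    { toFun := fun T => q ∘ₗ T ∘ₗ U.subtype
      map_add' := fun S T => by ext u; simp
      map_smul' := fun c T => by ext u; simp }, ?_⟩
  intro T hT u
  have := LinearMap.congr_fun hq ⟨T u, hT u u.2⟩
  simp only [LinearMap.comp_apply, Submodule.subtype_apply, LinearMap.id_apply] at this
  simp only [LinearMap.coe_mk, AddHom.coe_mk, LinearMap.comp_apply, Submodule.subtype_apply]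
  rw [this]

end Restr

section Main

variable {k : Type u} [Field k]

theorem exists_homog {V : Type*} [AddCommGroup V] [Module k V] [Nontrivial V]
    (π : Module.End k V) (pp : π * π = 1) : ∃ (v : V) (e : k), v ≠ 0 ∧ e * e = 1 ∧ π v = e • v := by
  obtain ⟨v, hv⟩ := exists_ne (0 : V)
  have hpp : ∀ v, π (π v) = v := fun v => by
    have := LinearMap.congr_fun pp v
    simpa using this
  by_cases h : v + π v = 0
  · refine ⟨v, -1, hv, by ring, ?_⟩
    rw [neg_smul, one_smul]
    exact eq_neg_of_add_eq_zero_right h
  · refine ⟨v + π v, 1, h, by ring, ?_⟩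
    rw [map_add, hpp, one_smul, add_comm]

theorem main_int [IsAlgClosed k] (p : ℕ) [hp : Fact p.Prime] [CharP k p] (h2 : (2 : k) ≠ 0) :
    ∀ (n : ℕ) (V : Type v) [AddCommGroup V] [Module k V] [FiniteDimensional k V]
      (π : Module.End k V) (L : ZMod 2 → Submodule k (Module.End k V)), finrank k V = n →
      IsSys p π L → IsSolv L → Irr π L → ∃ θ : Module.End k V →ₗ[k] k, θ 1 = 1 ∧
        finrank k V = p ^ (rk (fm 0 θ) (L 0) / 2) * 2 ^ ((rk (fm 1 θ) (L 1) + 1) / 2) := by
  intro n
  induction n using Nat.strong_induction_on with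
  | _ n ih =>
    intro V _ _ _ π L hn hL hs hirr
    have hnt : Nontrivial V := hirr.1
    by_cases hsc : HasSC L
    · obtain ⟨I, hI, hsc, hIn⟩ := hsc
      obtain ⟨μ, w, hw0, hμ1, hμ, hw⟩ := exists_weight h2 hnt π I
        (fun i T hT => hL.deg i T (hI.le i hT)) hsc
      have hUtop := Vac_ne_top (μ := μ) hμ hIn
      have hUbot : Vac I μ ≠ ⊥ := by
        intro h
        have : w ∈ Vac I μ := hw
        rw [h] at this
        exact hw0 ((Submodule.mem_bot k).1 this)
      obtain ⟨r₀, r₁, hr₀, hr₁, hdim⟩ := caseA_dim p h2 hL hirr hI hsc hμ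
      have hUS : ∀ i, ∀ T ∈ Stab L I μ i, ∀ u ∈ Vac I μ, T u ∈ Vac I μ := fun i T hT =>
        Stab_apply hI hμ hT
      have hUπ := Vac_pi hL hI hμ
      have hH := Stab_sys hL hI hsc hμ
      obtain ⟨R, hR⟩ := exists_restr (Vac I μ)
      have hR1 : R 1 = 1 := by
        ext u
        rw [hR 1 (fun u hu => hu)]
        rfl
      have hRmul : ∀ S T : Module.End k V, (∀ u ∈ Vac I μ, S u ∈ Vac I μ) →
          (∀ u ∈ Vac I μ, T u ∈ Vac I μ) → R (S * T) = R S * R T := by
        intro S T hS hT
        ext u
        rw [hR (S * T) (fun u hu => hS _ (hT u hu)), Module.End.mul_apply, Module.End.mul_apply,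
          hR S hS, hR T hT]
      have hRbr : ∀ i j, ∀ S ∈ Stab L I μ i, ∀ T ∈ Stab L I μ j,
          R (br i j S T) = br i j (R S) (R T) := by
        intro i j S hS T hT
        rw [br, br, map_sub, map_zsmul, hRmul _ _ (hUS i S hS) (hUS j T hT),
          hRmul _ _ (hUS j T hT) (hUS i S hS)]
      have hRμ : ∀ i, ∀ c ∈ I i, R c = μ c • 1 := by
        intro i c hc
        ext u
        rw [hR c (hUS i c (le_Stab hI hsc i hc)), u.2 i c hc]
        rfl
      have hL' : IsSys p (R π) (fun i => (Stab L I μ i).map R) := by
        refine ⟨?_, ⟨1, hH.one, hR1⟩, ?_, ?_, ?_⟩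
        · rw [← hRmul _ _ hUπ hUπ, hL.pp, hR1]
        · rintro i _ ⟨T, hT, rfl⟩
          rw [← hRmul _ _ hUπ (hUS i T hT), hH.deg i T hT, map_zsmul,
            hRmul _ _ (hUS i T hT) hUπ]
        · rintro i j _ ⟨S, hS, rfl⟩ _ ⟨T, hT, rfl⟩
          exact ⟨_, hH.brk i j S hS T hT, hRbr i j S hS T hT⟩
        · rintro _ ⟨T, hT, rfl⟩
          refine ⟨T ^ p, hH.pow T hT, ?_⟩
          have h3 : ∀ n : ℕ, (∀ u ∈ Vac I μ, (T ^ n) u ∈ Vac I μ) ∧ R (T ^ n) = R T ^ n := by
            intro n
            induction n with
            | zero => exact ⟨fun u hu => by simpa using hu, by simpa using hR1⟩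
            | succ n ihn =>
              refine ⟨fun u hu => ?_, ?_⟩
              · rw [pow_succ', Module.End.mul_apply]
                exact hUS 0 T hT _ (ihn.1 u hu)
              · rw [pow_succ', hRmul _ _ (hUS 0 T hT) ihn.1, ihn.2, ← pow_succ']
          exact (h3 p).2
      have hs' : IsSolv (fun i => (Stab L I μ i).map R) := by
        obtain ⟨N, S, hS0, hSN, hSL, hSS, hLS⟩ := hs
        refine ⟨N, fun n i => (S n i ⊓ Stab L I μ i).map R, ?_, ?_, ?_, ?_, ?_⟩
        · funext i
          dsimp only
          rw [hS0, inf_eq_right.2 (Stab_le i)]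
        · intro i
          dsimp only
          rw [hSN i, bot_inf_eq, Submodule.map_bot]
        · intro n i
          exact Submodule.map_mono inf_le_right
        · rintro n i j _ ⟨A, hA, rfl⟩ _ ⟨B, hB, rfl⟩
          exact ⟨_, ⟨hSS n i j A hA.1 B hB.1, hH.brk i j A hA.2 B hB.2⟩,
            hRbr i j A hA.2 B hB.2⟩
        · rintro n i j _ ⟨A, hA, rfl⟩ _ ⟨B, hB, rfl⟩
          exact ⟨_, ⟨hLS n i j A hA.1 B hB.1, hH.brk i j A hA B hB.2⟩,
            hRbr i j A hA B hB.2⟩
      have hpr : 0 < p ^ r₀ * 2 ^ r₁ := by
        have := hp.out.pos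
        positivity
      have hirr' : Irr (R π) (fun i => (Stab L I μ i).map R) := by
        refine ⟨(Submodule.nontrivial_iff_ne_bot).2 hUbot, ?_⟩
        intro W hWπ hWT
        by_cases hW : W = ⊥
        · exact Or.inl hW
        right
        have h3 := hdim (Vac I μ) hUbot le_rfl hUπ hUS
        have h4 := hdim (W.map (Vac I μ).subtype) (by
            intro h
            apply hW
            rw [eq_bot_iff]
            intro u hu
            have h5 : (u : V) ∈ W.map (Vac I μ).subtype := ⟨u, hu, rfl⟩
            rw [h] at h5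
            exact (Submodule.mem_bot k).2 (Subtype.ext ((Submodule.mem_bot k).1 h5))) (by
            rintro _ ⟨u, _, rfl⟩
            exact u.2) (by
            rintro _ ⟨u, hu, rfl⟩
            refine ⟨R π u, hWπ u hu, ?_⟩
            exact hR π hUπ u) (by
            rintro i T hT _ ⟨u, hu, rfl⟩
            refine ⟨R T u, hWT i _ ⟨T, hT, rfl⟩ u hu, ?_⟩
            exact hR T (hUS i T hT) u)
        rw [Submodule.finrank_map_subtype_eq] at h4
        rw [h3] at h4
        have h5 := Nat.eq_of_mul_eq_mul_left hpr h4
        exact Submodule.eq_top_of_finrank_eq h5.symm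
      have hlt : finrank k (Vac I μ) < n := by
        rw [← hn]
        exact Submodule.finrank_lt hUtop
      obtain ⟨θ', hθ1, hθ⟩ := ih _ hlt (Vac I μ) (R π) (fun i => (Stab L I μ i).map R) rfl hL' hs'
        hirr'
      refine ⟨θ' ∘ₗ R, by rw [LinearMap.comp_apply, hR1, hθ1], ?_⟩
      have hpb : ∀ i, rk (fm i (θ' ∘ₗ R)) (Stab L I μ i) =
          rk (fm i θ') ((Stab L I μ i).map R) := by
        intro i
        apply rk_pullback
        intro x hx y hy
        rw [fm_apply, fm_apply, LinearMap.comp_apply, hRbr i i x hx y hy]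
      have hrk : ∀ i, rk (fm i (θ' ∘ₗ R)) (L i) + 2 * finrank k (Stab L I μ i) =
          2 * finrank k (L i) + rk (fm i (θ' ∘ₗ R)) (Stab L I μ i) := by
        intro i
        apply rk_lemma _ _ (I i) _ (fun x _ y _ h => fm_refl i _ x y h) (le_Stab hI hsc i)
        intro x
        rw [mem_Stab]
        have h3 : x ∈ L i → ∀ b ∈ I i, fm i (θ' ∘ₗ R) b x = fm i μ b x := by
          intro hx b hb
          have h4 : br i i b x ∈ I (i + i) := by
            rw [br_symm]
            exact (I _).neg_mem (zsmul_mem' (hI.brk i i x hx b hb) _)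
          rw [fm_apply, fm_apply, LinearMap.comp_apply, hRμ _ _ h4, map_smul, hθ1, smul_eq_mul,
            mul_one]
        constructor
        · rintro ⟨hx, hx'⟩
          exact ⟨hx, fun b hb => by rw [h3 hx b hb, hx' b hb]⟩
        · rintro ⟨hx, hx'⟩
          exact ⟨hx, fun b hb => by rw [← h3 hx b hb, hx' b hb]⟩
      have e0 : rk (fm 0 (θ' ∘ₗ R)) (L 0) = 2 * r₀ + rk (fm 0 θ') ((Stab L I μ 0).map R) := by
        have h3 := hrk 0
        rw [hpb 0] at h3
        omega
      have e1 : rk (fm 1 (θ' ∘ₗ R)) (L 1) = 2 * r₁ + rk (fm 1 θ') ((Stab L I μ 1).map R) := by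
        have h3 := hrk 1
        rw [hpb 1] at h3
        omega
      rw [hdim (Vac I μ) hUbot le_rfl hUπ hUS, hθ, e0, e1]
      have f0 : ∀ b : ℕ, (2 * r₀ + b) / 2 = r₀ + b / 2 := by intro b; omega
      have f1 : ∀ b : ℕ, (2 * r₁ + b + 1) / 2 = r₁ + (b + 1) / 2 := by intro b; omega
      rw [f0, f1, pow_add, pow_add]
      ring
    · -- terminal cases
      obtain ⟨v, e, hv0, he, hve⟩ := exists_homog π hL.pp
      obtain ⟨θ, hθ⟩ : ∃ θ : Module.End k V →ₗ[k] k, θ 1 = 1 := by
        by_contra hcon
        push Not at hcon
        have h1 : (1 : Module.End k V) ≠ 0 := one_ne_zero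
        apply h1
        rw [← Module.forall_dual_apply_eq_zero_iff k (1 : Module.End k V)]
        intro φ
        by_contra hφ
        exact hcon ((φ 1)⁻¹ • φ) (by
          rw [LinearMap.smul_apply, smul_eq_mul, inv_mul_cancel₀ hφ])
      refine ⟨θ, hθ, ?_⟩
      have hZ0 : L 0 ≤ Zs k (Module.End k V) 0 → rk (fm 0 θ) (L 0) = 0 := by
        intro h
        apply rk_zero
        intro x hx y _
        rw [fm_apply, br_Zs_left (h hx), map_zero]
      rcases lemmaY p h2 hL hs hsc with hZ | ⟨y, hy, c, hc0, hyc, hL0, hL1⟩
      · have h1 : rk (fm 1 θ) (L 1) = 0 := by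
          apply rk_zero
          intro x hx y _
          rw [fm_apply, br_Zs_left (hZ 1 hx), map_zero]
        rw [hZ0 (hZ 0), h1]
        have h3 : Submodule.span k {v} = ⊤ := by
          refine (hirr.2 _ ?_ ?_).resolve_left ?_
          · intro w hw
            obtain ⟨d, rfl⟩ := Submodule.mem_span_singleton.1 hw
            rw [map_smul, hve]
            exact Submodule.smul_mem _ _ (Submodule.smul_mem _ _
              (Submodule.mem_span_singleton_self v))
          · intro i T hT w hw
            rcases Zs_cases (hZ i hT) with rfl | ⟨_, d, rfl⟩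
            · simp
            · simpa using Submodule.smul_mem _ d hw
          · intro h
            rw [Submodule.span_singleton_eq_bot] at h
            exact hv0 h
        rw [← finrank_top, ← h3, finrank_span_singleton hv0]
        simp
      · have h1 : rk (fm 1 θ) (L 1) = 1 := by
          apply rk_one _ _ y hy hL1
          rw [fm_apply]
          have h3 : br 1 1 y y = (2 * c) • (1 : Module.End k V) := by
            simp only [br, sg_one_one, neg_smul, one_smul, sub_neg_eq_add]
            rw [hyc, ← two_smul k, smul_smul]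
          rw [h3, map_smul, hθ, smul_eq_mul, mul_one]
          exact mul_ne_zero h2 hc0
        rw [hZ0 hL0, h1]
        have hyy : ∀ v, y (y v) = c • v := fun v => by
          have := LinearMap.congr_fun hyc v
          simpa using this
        have hyv0 : y v ≠ 0 := by
          intro h
          have := hyy v
          rw [h, map_zero, eq_comm, smul_eq_zero] at this
          rcases this with h3 | h3
          · exact hc0 h3
          · exact hv0 h3
        have hπy : π (y v) = -(e • y v) := by
          have := LinearMap.congr_fun (hL.deg 1 y hy) v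
          simp only [Module.End.mul_apply, sg_one_one, neg_smul, one_smul,
            LinearMap.neg_apply] at this
          rw [this, hve, map_smul]
        have h3 : Submodule.span k {v, y v} = ⊤ := by
          have hv1 : v ∈ Submodule.span k {v, y v} := Submodule.subset_span (by simp)
          have hv2 : y v ∈ Submodule.span k {v, y v} := Submodule.subset_span (by simp)
          refine (hirr.2 _ ?_ ?_).resolve_left ?_
          · intro w hw
            obtain ⟨a, b, rfl⟩ := Submodule.mem_span_pair.1 hw
            rw [map_add, map_smul, map_smul, hve, hπy]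
            exact Submodule.add_mem _ (Submodule.smul_mem _ _ (Submodule.smul_mem _ _ hv1))
              (Submodule.smul_mem _ _ (Submodule.neg_mem _ (Submodule.smul_mem _ _ hv2)))
          · intro i T hT w hw
            rcases z2 i with rfl | rfl
            · obtain ⟨d, rfl⟩ := mem_Zs_zero.1 (hL0 hT)
              simpa using Submodule.smul_mem _ d hw
            · obtain ⟨d, rfl⟩ := Submodule.mem_span_singleton.1 (hL1 hT)
              obtain ⟨a, b, rfl⟩ := Submodule.mem_span_pair.1 hw
              rw [LinearMap.smul_apply, map_add, map_smul, map_smul, hyy]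
              exact Submodule.smul_mem _ _ (Submodule.add_mem _ (Submodule.smul_mem _ _ hv2)
                (Submodule.smul_mem _ _ (Submodule.smul_mem _ _ hv1)))
          · intro h
            rw [h] at hv1
            exact hv0 ((Submodule.mem_bot k).1 hv1)
        have hli : LinearIndependent k ![v, y v] := by
          rw [LinearIndependent.pair_iff]
          intro a b hab
          have h4 := congrArg π hab
          rw [map_add, map_smul, map_smul, hve, hπy, map_zero] at h4
          have he0 : e ≠ 0 := by
            rintro rfl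
            simp at he
          have h5 : (2 * e * a) • v = 0 := by
            have : (2 * e * a) • v = e • (a • v + b • y v) + (a • e • v + b • -(e • y v)) := by
              module
            rw [this, hab, h4]; simp
          have ha : a = 0 := by
            rcases smul_eq_zero.1 h5 with h6 | h6
            · exact (mul_eq_zero.1 h6).resolve_left (mul_ne_zero h2 he0)
            · exact absurd h6 hv0
          rw [ha, zero_smul, zero_add] at hab
          exact ⟨ha, (smul_eq_zero.1 hab).resolve_right hyv0⟩
        have h6 := finrank_span_eq_card hli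
        have h7 : Set.range ![v, y v] = {v, y v} := by
          simp [Matrix.range_cons, Matrix.range_empty, Set.pair_comm]
        rw [h7, h3, finrank_top] at h6
        rw [h6]
        simp

end Main

end Pool.Agent.Helper54.SKW
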