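import Mathlib
import Pool.Agent.Helper54.SKW.Main
import Pool.Agent.Helper54.SKW.Der

/-!
# From Lie superalgebras to systems of endomorphisms
-/

namespace Pool.Agent.Helper54.SKW

open Module Pool.Agent.Helper56.SKW

universe u v

variable {k : Type u} {L₀ L₁ : Type*} [Field k] [AddCommGroup L₀] [Module k L₀] [AddCommGroup L₁]
  [Module k L₁]

theorem exists_parity {V : Type*} [AddCommGroup V] [Module k V] (V₀ V₁ : Submodule k V)
    (h : IsCompl V₀ V₁) : ∃ π : Module.End k V, (∀ v ∈ V₀, π v = v) ∧ (∀ v ∈ V₁, π v = -v) := by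
  let e := Submodule.prodEquivOfIsCompl V₀ V₁ h
  let π : Module.End k V := (V₀.subtype ∘ₗ LinearMap.fst k V₀ V₁ -
    V₁.subtype ∘ₗ LinearMap.snd k V₀ V₁) ∘ₗ (e.symm : V →ₗ[k] V₀ × V₁)
  refine ⟨π, ?_, ?_⟩
  · intro v hv
    have h3 : e.symm v = (⟨v, hv⟩, 0) :=
      Submodule.prodEquivOfIsCompl_symm_apply_left V₀ V₁ h ⟨v, hv⟩
    simp only [π, LinearMap.comp_apply, LinearEquiv.coe_coe, h3, LinearMap.sub_apply,
      LinearMap.fst_apply, LinearMap.snd_apply, Submodule.subtype_apply]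
    simp
  · intro v hv
    have h3 : e.symm v = (0, ⟨v, hv⟩) :=
      Submodule.prodEquivOfIsCompl_symm_apply_right V₀ V₁ h ⟨v, hv⟩
    simp only [π, LinearMap.comp_apply, LinearEquiv.coe_coe, h3, LinearMap.sub_apply,
      LinearMap.fst_apply, LinearMap.snd_apply, Submodule.subtype_apply]
    simp

/-- The system of endomorphisms attached to a module. -/
def Lm {g : LieSuper k L₀ L₁} {V : Type*} [AddCommGroup V] [Module k V] (M : SuperModule g V)
    (i : ZMod 2) : Submodule k (Module.End k V) :=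
  if i = 0 then LinearMap.range M.ρ₀ ⊔ Submodule.span k {1} else LinearMap.range M.ρ₁

theorem mem_Lm0 {g : LieSuper k L₀ L₁} {V : Type*} [AddCommGroup V] [Module k V]
    {M : SuperModule g V} {T : Module.End k V} :
    T ∈ Lm M 0 ↔ ∃ (x : L₀) (c : k), T = M.ρ₀ x + c • 1 := by
  simp only [Lm, if_true]
  rw [Submodule.mem_sup]
  constructor
  · rintro ⟨_, ⟨x, rfl⟩, z, hz, rfl⟩
    obtain ⟨c, rfl⟩ := Submodule.mem_span_singleton.1 hz
    exact ⟨x, c, rfl⟩
  · rintro ⟨x, c, rfl⟩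
    exact ⟨_, ⟨x, rfl⟩, _, Submodule.mem_span_singleton.2 ⟨c, rfl⟩, rfl⟩

theorem mem_Lm1 {g : LieSuper k L₀ L₁} {V : Type*} [AddCommGroup V] [Module k V]
    {M : SuperModule g V} {T : Module.End k V} :
    T ∈ Lm M 1 ↔ ∃ y : L₁, T = M.ρ₁ y := by
  have : (1 : ZMod 2) ≠ 0 := by decide
  simp only [Lm, if_neg this]
  constructor
  · rintro ⟨y, rfl⟩
    exact ⟨y, rfl⟩
  · rintro ⟨y, rfl⟩
    exact ⟨y, rfl⟩

theorem br_smul_one_left {R : Type*} [Ring R] [Algebra k R] (i : ZMod 2) (c : k) (T : R) :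
    br 0 i (c • (1 : R)) T = 0 := by
  simp [br]

theorem br_smul_one_right {R : Type*} [Ring R] [Algebra k R] (i : ZMod 2) (c : k) (T : R) :
    br i 0 T (c • (1 : R)) = 0 := by
  simp [br]

section

variable {g : LieSuper k L₀ L₁} {V : Type v} [AddCommGroup V] [Module k V]
  (M : SuperModule g V)

theorem br00 (x x' : L₀) (c c' : k) :
    br 0 0 (M.ρ₀ x + c • 1) (M.ρ₀ x' + c' • 1) = M.ρ₀ (g.b00 x x') := by
  rw [br_add_left, br_add_right, br_add_right, br_smul_one_left, br_smul_one_left,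
    br_smul_one_right, M.map00]
  simp [br]

theorem br01 (x : L₀) (c : k) (y : L₁) : br 0 1 (M.ρ₀ x + c • 1) (M.ρ₁ y) = M.ρ₁ (g.b01 x y) := by
  rw [br_add_left, br_smul_one_left, M.map01]
  simp [br]

theorem br10 (x : L₀) (c : k) (y : L₁) :
    br 1 0 (M.ρ₁ y) (M.ρ₀ x + c • 1) = -M.ρ₁ (g.b01 x y) := by
  rw [br_add_right, br_smul_one_right, M.map01]
  simp [br]

theorem br11 (y y' : L₁) : br 1 1 (M.ρ₁ y) (M.ρ₁ y') = M.ρ₀ (g.b11 y y') := by
  rw [M.map11]
  simp [br]

end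

/-- A graded irreducible operator commuting with everything is a scalar. -/
theorem schur [IsAlgClosed k] {V : Type v} [AddCommGroup V] [Module k V] [FiniteDimensional k V]
    {π : Module.End k V} {L : ZMod 2 → Submodule k (Module.End k V)} (hirr : Irr π L)
    (D : Module.End k V) (hπ : D * π = π * D) (hD : ∀ i, ∀ T ∈ L i, D * T = T * D) :
    ∃ c : k, D = c • 1 := by
  have := hirr.1
  obtain ⟨c, hc⟩ := Module.End.exists_eigenvalue D
  obtain ⟨u, hu⟩ := hc.exists_hasEigenvector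
  refine ⟨c, ?_⟩
  rcases hirr.2 (LinearMap.ker (D - c • 1)) (by
      intro w hw
      rw [LinearMap.mem_ker, LinearMap.sub_apply, LinearMap.smul_apply, Module.End.one_apply,
        sub_eq_zero] at hw ⊢
      have h1 := LinearMap.congr_fun hπ w
      rw [Module.End.mul_apply, Module.End.mul_apply] at h1
      rw [h1, hw, map_smul]) (by
      intro i T hT w hw
      rw [LinearMap.mem_ker, LinearMap.sub_apply, LinearMap.smul_apply, Module.End.one_apply,
        sub_eq_zero] at hw ⊢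
      have h1 := LinearMap.congr_fun (hD i T hT) w
      rw [Module.End.mul_apply, Module.End.mul_apply] at h1
      rw [h1, hw, map_smul]) with h | h
  · exfalso
    have h1 : u ∈ LinearMap.ker (D - c • 1) := by
      rw [LinearMap.mem_ker, LinearMap.sub_apply, LinearMap.smul_apply, Module.End.one_apply,
        sub_eq_zero]
      exact hu.apply_eq_smul
    rw [h] at h1
    exact hu.2 ((Submodule.mem_bot k).1 h1)
  · ext w
    have h1 : w ∈ LinearMap.ker (D - c • 1) := h ▸ trivial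
    rw [LinearMap.mem_ker, LinearMap.sub_apply, sub_eq_zero] at h1
    exact h1

theorem irr_dim [IsAlgClosed k] (p : ℕ) [hp : Fact p.Prime] [CharP k p] (h2 : (2 : k) ≠ 0)
    [FiniteDimensional k L₀] [FiniteDimensional k L₁] (g : LieSuper k L₀ L₁)
    (hres : ∀ x, ∃ x', g.b00 x' = (g.b00 x) ^ p ∧ g.b01 x' = (g.b01 x) ^ p)
    (hsolv : IsSolvable g) {V : Type v} [AddCommGroup V] [Module k V] [FiniteDimensional k V]
    (M : SuperModule g V) (hM : M.IsIrreducible) :
    ∃ θ : L₀ →ₗ[k] k, finrank k V = p ^ (bEven g θ / 2) * 2 ^ ((bOdd g θ + 1) / 2) := by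
  have hnt : Nontrivial V := hM.1
  obtain ⟨π, hπ0, hπ1⟩ := exists_parity M.V₀ M.V₁ M.compl
  have hdec : ∀ v : V, ∃ a ∈ M.V₀, ∃ b ∈ M.V₁, v = a + b := by
    intro v
    have : v ∈ M.V₀ ⊔ M.V₁ := by rw [M.compl.sup_eq_top]; trivial
    obtain ⟨a, ha, b, hb, rfl⟩ := Submodule.mem_sup.1 this
    exact ⟨a, ha, b, hb, rfl⟩
  have hext : ∀ S T : Module.End k V, (∀ a ∈ M.V₀, S a = T a) → (∀ b ∈ M.V₁, S b = T b) →
      S = T := by
    intro S T h0 h1
    ext v
    obtain ⟨a, ha, b, hb, rfl⟩ := hdec v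
    rw [map_add, map_add, h0 a ha, h1 b hb]
  have hirr : Irr π (Lm M) := by
    refine ⟨hnt, fun W hWπ hW => hM.2 W ?_ ?_ ?_⟩
    · apply le_antisymm
      · intro w hw
        obtain ⟨a, ha, b, hb, rfl⟩ := hdec w
        have h3 := hWπ _ hw
        rw [map_add, hπ0 a ha, hπ1 b hb] at h3
        have ha' : a ∈ W := by
          have h4 : a = (2 : k)⁻¹ • ((a + b) + (a + -b)) := by
            have : (a + b) + (a + -b) = (2 : k) • a := by rw [two_smul]; abel
            rw [this, smul_smul, inv_mul_cancel₀ h2, one_smul]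
          rw [h4]
          exact W.smul_mem _ (W.add_mem hw h3)
        have hb' : b ∈ W := by
          have h4 : b = (a + b) - a := by abel
          rw [h4]
          exact W.sub_mem hw ha'
        exact Submodule.add_mem_sup ⟨ha', ha⟩ ⟨hb', hb⟩
      · exact sup_le inf_le_left inf_le_left
    · intro x w hw
      exact hW 0 _ (mem_Lm0.2 ⟨x, 0, by simp⟩) w hw
    · intro y w hw
      exact hW 1 _ (mem_Lm1.2 ⟨y, rfl⟩) w hw
  have hdeg : ∀ i, ∀ T ∈ Lm M i, π * T = sg i 1 • (T * π) := by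
    intro i T hT
    rcases z2 i with rfl | rfl
    · obtain ⟨x, c, rfl⟩ := mem_Lm0.1 hT
      rw [sg_zero_left, one_smul]
      apply hext
      · intro a ha
        simp only [Module.End.mul_apply, LinearMap.add_apply, LinearMap.smul_apply,
          Module.End.one_apply, map_add, map_smul, hπ0 a ha, hπ0 _ (M.even_V₀ x a ha)]
      · intro b hb
        simp only [Module.End.mul_apply, LinearMap.add_apply, LinearMap.smul_apply,
          Module.End.one_apply, map_add, map_smul, hπ1 b hb, hπ1 _ (M.even_V₁ x b hb), map_neg,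
          smul_neg, neg_add]
    · obtain ⟨y, rfl⟩ := mem_Lm1.1 hT
      rw [sg_one_one, neg_smul, one_smul]
      apply hext
      · intro a ha
        simp only [Module.End.mul_apply, LinearMap.neg_apply, hπ0 a ha,
          hπ1 _ (M.odd_V₀ y a ha)]
      · intro b hb
        simp only [Module.End.mul_apply, LinearMap.neg_apply, hπ1 b hb,
          hπ0 _ (M.odd_V₁ y b hb), map_neg, neg_neg]
  have hone : (1 : Module.End k V) ∈ Lm M 0 := mem_Lm0.2 ⟨0, 1, by simp⟩
  have hbrk : ∀ i j, ∀ S ∈ Lm M i, ∀ T ∈ Lm M j, br i j S T ∈ Lm M (i + j) := by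
    intro i j S hS T hT
    rcases z2 i with rfl | rfl <;> rcases z2 j with rfl | rfl
    · obtain ⟨x, c, rfl⟩ := mem_Lm0.1 hS
      obtain ⟨x', c', rfl⟩ := mem_Lm0.1 hT
      rw [br00, zero_add]
      exact mem_Lm0.2 ⟨g.b00 x x', 0, by simp⟩
    · obtain ⟨x, c, rfl⟩ := mem_Lm0.1 hS
      obtain ⟨y, rfl⟩ := mem_Lm1.1 hT
      rw [br01, zero_add]
      exact mem_Lm1.2 ⟨_, rfl⟩
    · obtain ⟨x, c, rfl⟩ := mem_Lm0.1 hT
      obtain ⟨y, rfl⟩ := mem_Lm1.1 hS
      rw [br10, add_zero]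
      exact mem_Lm1.2 ⟨-(g.b01 x y), by simp⟩
    · obtain ⟨y, rfl⟩ := mem_Lm1.1 hS
      obtain ⟨y', rfl⟩ := mem_Lm1.1 hT
      rw [br11, z2_one_add_one]
      exact mem_Lm0.2 ⟨g.b11 y y', 0, by simp⟩
  -- the `p`-th powers
  have hadp0 : ∀ x z (n : ℕ), ((LinearMap.mulLeft k (M.ρ₀ x) - LinearMap.mulRight k (M.ρ₀ x)) ^ n)
      (M.ρ₀ z) = M.ρ₀ ((g.b00 x ^ n) z) := by
    intro x z n
    induction n with
    | zero => simp
    | succ n ih =>
      rw [pow_succ', Module.End.mul_apply, ih, pow_succ', Module.End.mul_apply, M.map00]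
      simp
  have hadp1 : ∀ x y (n : ℕ), ((LinearMap.mulLeft k (M.ρ₀ x) - LinearMap.mulRight k (M.ρ₀ x)) ^ n)
      (M.ρ₁ y) = M.ρ₁ ((g.b01 x ^ n) y) := by
    intro x z n
    induction n with
    | zero => simp
    | succ n ih =>
      rw [pow_succ', Module.End.mul_apply, ih, pow_succ', Module.End.mul_apply, M.map01]
      simp
  have hpow : ∀ T ∈ Lm M 0, T ^ p ∈ Lm M 0 := by
    intro T hT
    obtain ⟨x, c, rfl⟩ := mem_Lm0.1 hT
    obtain ⟨x', hx0, hx1⟩ := hres x
    have hxL : M.ρ₀ x ∈ Lm M 0 := mem_Lm0.2 ⟨x, 0, by simp⟩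
    have hx'L : M.ρ₀ x' ∈ Lm M 0 := mem_Lm0.2 ⟨x', 0, by simp⟩
    have hπx : ∀ z, Commute π (M.ρ₀ z) := by
      intro z
      have := hdeg 0 _ (mem_Lm0.2 ⟨z, 0, by simp⟩ : M.ρ₀ z ∈ Lm M 0)
      rwa [sg_zero_left, one_smul] at this
    obtain ⟨d, hd⟩ := schur hirr (M.ρ₀ x ^ p - M.ρ₀ x')
      (((hπx x).pow_right p).sub_right (hπx x')).eq.symm (by
      intro i T hT
      have h0 : ∀ z, (M.ρ₀ x ^ p - M.ρ₀ x') * M.ρ₀ z = M.ρ₀ z * (M.ρ₀ x ^ p - M.ρ₀ x') := by
        intro z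
        have h3 := hadp0 x z p
        rw [ad_pow_char, ← hx0, M.map00] at h3
        rw [← sub_eq_zero]
        rw [← sub_eq_zero] at h3
        rw [← h3]
        noncomm_ring
      have h1 : ∀ z, (M.ρ₀ x ^ p - M.ρ₀ x') * M.ρ₁ z = M.ρ₁ z * (M.ρ₀ x ^ p - M.ρ₀ x') := by
        intro z
        have h3 := hadp1 x z p
        rw [ad_pow_char, ← hx1, M.map01] at h3
        rw [← sub_eq_zero]
        rw [← sub_eq_zero] at h3
        rw [← h3]
        noncomm_ring
      rcases z2 i with rfl | rfl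
      · obtain ⟨z, c, rfl⟩ := mem_Lm0.1 hT
        rw [mul_add, add_mul, h0 z]
        simp
      · obtain ⟨z, rfl⟩ := mem_Lm1.1 hT
        exact h1 z)
    have hchar : CharP (Module.End k V) p :=
      charP_of_injective_algebraMap (algebraMap k (Module.End k V)).injective p
    have h3 : (M.ρ₀ x + c • 1) ^ p = M.ρ₀ x ^ p + (c • 1) ^ p := by
      apply add_pow_char_of_commute
      exact (Commute.one_right _).smul_right c
    rw [h3, smul_pow, one_pow]
    refine mem_Lm0.2 ⟨x', c ^ p + d, ?_⟩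
    rw [sub_eq_iff_eq_add] at hd
    rw [hd, add_smul]
    abel
  have hL : IsSys p π (Lm M) := by
    refine ⟨?_, hone, hdeg, hbrk, hpow⟩
    apply hext
    · intro a ha
      rw [Module.End.mul_apply, hπ0 a ha, hπ0 a ha]
      rfl
    · intro b hb
      rw [Module.End.mul_apply, hπ1 b hb, map_neg, hπ1 b hb, neg_neg]
      rfl
  have hs : IsSolv (Lm M) := by
    obtain ⟨N, hN⟩ := hsolv
    have hdi := derived_ideal h2 g
    let D : ℕ → ZMod 2 → Submodule k (Module.End k V) := fun n i =>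
      if i = 0 then (derivedSeries g n).1.map M.ρ₀ else (derivedSeries g n).2.map M.ρ₁
    have h10 : (1 : ZMod 2) ≠ 0 := by decide
    have hD0 : ∀ n T, T ∈ D n 0 ↔ ∃ x ∈ (derivedSeries g n).1, T = M.ρ₀ x := by
      intro n T
      simp only [D, if_true]
      constructor
      · rintro ⟨x, hx, rfl⟩; exact ⟨x, hx, rfl⟩
      · rintro ⟨x, hx, rfl⟩; exact ⟨x, hx, rfl⟩
    have hD1 : ∀ n T, T ∈ D n 1 ↔ ∃ x ∈ (derivedSeries g n).2, T = M.ρ₁ x := by
      intro n T
      simp only [D, if_neg h10]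
      constructor
      · rintro ⟨x, hx, rfl⟩; exact ⟨x, hx, rfl⟩
      · rintro ⟨x, hx, rfl⟩; exact ⟨x, hx, rfl⟩
    have hDL : ∀ n i, D n i ≤ Lm M i := by
      intro n i T hT
      rcases z2 i with rfl | rfl
      · obtain ⟨x, _, rfl⟩ := (hD0 n T).1 hT
        exact mem_Lm0.2 ⟨x, 0, by simp⟩
      · obtain ⟨x, _, rfl⟩ := (hD1 n T).1 hT
        exact mem_Lm1.2 ⟨x, rfl⟩
    have hDD : ∀ n i j, ∀ A ∈ Lm M i, ∀ B ∈ Lm M j, (n = 0 ∨ (A ∈ D n i ∧ B ∈ D n j)) →
        br i j A B ∈ D (n + 1) (i + j) := by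
      intro n i j A hA B hB h
      have hA0 : n = 0 ∨ A ∈ D n i := h.imp id And.left
      have hB0 : n = 0 ∨ B ∈ D n j := h.imp id And.right
      have key0 : ∀ T, T ∈ Lm M 0 → (n = 0 ∨ T ∈ D n 0) →
          ∃ x ∈ (derivedSeries g n).1, ∃ c : k, T = M.ρ₀ x + c • 1 := by
        rintro T hT (rfl | hT')
        · obtain ⟨x, c, rfl⟩ := mem_Lm0.1 hT
          exact ⟨x, trivial, c, rfl⟩
        · obtain ⟨x, hx, rfl⟩ := (hD0 n T).1 hT'
          exact ⟨x, hx, 0, by simp⟩
      have key1 : ∀ T, T ∈ Lm M 1 → (n = 0 ∨ T ∈ D n 1) →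
          ∃ x ∈ (derivedSeries g n).2, T = M.ρ₁ x := by
        rintro T hT (rfl | hT')
        · obtain ⟨x, rfl⟩ := mem_Lm1.1 hT
          exact ⟨x, trivial, rfl⟩
        · exact (hD1 n T).1 hT'
      rcases z2 i with rfl | rfl <;> rcases z2 j with rfl | rfl
      · obtain ⟨x, hx, c, rfl⟩ := key0 A hA hA0
        obtain ⟨x', hx', c', rfl⟩ := key0 B hB hB0
        rw [br00, zero_add, hD0]
        exact ⟨_, Submodule.mem_sup_left (Submodule.apply_mem_map₂ _ hx hx'), rfl⟩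
      · obtain ⟨x, hx, c, rfl⟩ := key0 A hA hA0
        obtain ⟨x', hx', rfl⟩ := key1 B hB hB0
        rw [br01, zero_add, hD1]
        exact ⟨_, Submodule.apply_mem_map₂ _ hx hx', rfl⟩
      · obtain ⟨x, hx, rfl⟩ := key1 A hA hA0
        obtain ⟨x', hx', c, rfl⟩ := key0 B hB hB0
        rw [br10, add_zero, hD1]
        exact ⟨-_, Submodule.neg_mem _ (Submodule.apply_mem_map₂ _ hx' hx), by rw [map_neg]⟩
      · obtain ⟨x, hx, rfl⟩ := key1 A hA hA0
        obtain ⟨x', hx', rfl⟩ := key1 B hB hB0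
        rw [br11, z2_one_add_one, hD0]
        exact ⟨_, Submodule.mem_sup_right (Submodule.apply_mem_map₂ _ hx hx'), rfl⟩
    have hLD : ∀ n i j, ∀ A ∈ Lm M i, ∀ B ∈ D n j, br i j A B ∈ D n (i + j) := by
      intro n i j A hA B hB
      obtain ⟨d1, d2, d3, d4⟩ := hdi n
      rcases z2 i with rfl | rfl <;> rcases z2 j with rfl | rfl
      · obtain ⟨x, c, rfl⟩ := mem_Lm0.1 hA
        obtain ⟨x', hx', rfl⟩ := (hD0 n B).1 hB
        have h3 := br00 M x x' c 0
        rw [zero_smul, add_zero] at h3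
        rw [h3, zero_add, hD0]
        exact ⟨_, d1 x x' hx', rfl⟩
      · obtain ⟨x, c, rfl⟩ := mem_Lm0.1 hA
        obtain ⟨x', hx', rfl⟩ := (hD1 n B).1 hB
        rw [br01, zero_add, hD1]
        exact ⟨_, d2 x x' hx', rfl⟩
      · obtain ⟨x, rfl⟩ := mem_Lm1.1 hA
        obtain ⟨x', hx', rfl⟩ := (hD0 n B).1 hB
        have h3 := br10 M x' 0 x
        rw [zero_smul, add_zero] at h3
        rw [h3, add_zero, hD1]
        exact ⟨-_, Submodule.neg_mem _ (d3 x' hx' x), by rw [map_neg]⟩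
      · obtain ⟨x, rfl⟩ := mem_Lm1.1 hA
        obtain ⟨x', hx', rfl⟩ := (hD1 n B).1 hB
        rw [br11, z2_one_add_one, hD0]
        exact ⟨_, d4 x x' hx', rfl⟩
    refine ⟨N + 1, fun n => if n = 0 then Lm M else D n, by simp, ?_, ?_, ?_, ?_⟩
    · intro i
      dsimp only
      rw [if_neg (Nat.succ_ne_zero N)]
      have h3 : derivedSeries g (N + 1) = (⊥, ⊥) := by
        rw [derivedSeries, hN]
        simp
      rcases z2 i with rfl | rfl
      · simp [D, h3]
      · simp [D, h3, h10]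
    · intro n i
      dsimp only
      split_ifs
      · exact le_rfl
      · exact hDL n i
    · intro n i j A hA B hB
      dsimp only at hA hB ⊢
      rw [if_neg (Nat.succ_ne_zero n)]
      by_cases hn : n = 0
      · rw [if_pos hn] at hA hB
        exact hDD n i j A hA B hB (Or.inl hn)
      · rw [if_neg hn] at hA hB
        exact hDD n i j A (hDL n i hA) B (hDL n j hB) (Or.inr ⟨hA, hB⟩)
    · intro n i j A hA B hB
      dsimp only at hB ⊢
      by_cases hn : n = 0
      · rw [if_pos hn] at hB ⊢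
        exact hbrk i j A hA B hB
      · rw [if_neg hn] at hB ⊢
        exact hLD n i j A hA B hB
  obtain ⟨θ, hθ1, hθ⟩ := main_int p h2 _ V π (Lm M) rfl hL hs hirr
  refine ⟨θ ∘ₗ M.ρ₀, ?_⟩
  have e0 : bEven g (θ ∘ₗ M.ρ₀) = rk (fm 0 θ) (Lm M 0) := by
    have h3 := LinearMap.finrank_range_add_finrank_ker (form₀ g (θ ∘ₗ M.ρ₀))
    have h4 : finrank k (LinearMap.range (form₀ g (θ ∘ₗ M.ρ₀))) = rk (fm 0 θ) (Lm M 0) := by
      refine finrank_range_pullback _ _
        (M.ρ₀.codRestrict (Lm M 0) (fun x => mem_Lm0.2 ⟨x, 0, by simp⟩)) ?_ ?_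
      · intro x x'
        rw [LinearMap.domRestrict₁₂_apply, fm_apply]
        have h5 := br00 M x x' 0 0
        simp only [zero_smul, add_zero] at h5
        rw [LinearMap.codRestrict_apply, LinearMap.codRestrict_apply, h5]
        rfl
      · rintro ⟨z, hz⟩
        obtain ⟨x, c, rfl⟩ := mem_Lm0.1 hz
        refine ⟨x, ?_, ?_⟩
        · rintro ⟨w, hw⟩
          rw [LinearMap.domRestrict₁₂_apply, LinearMap.domRestrict₁₂_apply, fm_apply, fm_apply,
            LinearMap.codRestrict_apply, br_add_left, br_smul_one_left, add_zero]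
        · rintro ⟨w, hw⟩
          rw [LinearMap.domRestrict₁₂_apply, LinearMap.domRestrict₁₂_apply, fm_apply, fm_apply,
            LinearMap.codRestrict_apply, br_add_right, br_smul_one_right, add_zero]
    rw [bEven, ← h4]
    omega
  have e1 : bOdd g (θ ∘ₗ M.ρ₀) = rk (fm 1 θ) (Lm M 1) := by
    have h3 := LinearMap.finrank_range_add_finrank_ker (form₁ g (θ ∘ₗ M.ρ₀))
    have h4 : finrank k (LinearMap.range (form₁ g (θ ∘ₗ M.ρ₀))) = rk (fm 1 θ) (Lm M 1) := by
      refine finrank_range_pullback _ _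
        (M.ρ₁.codRestrict (Lm M 1) (fun x => mem_Lm1.2 ⟨x, rfl⟩)) ?_ ?_
      · intro x x'
        rw [LinearMap.domRestrict₁₂_apply, fm_apply]
        rw [LinearMap.codRestrict_apply, LinearMap.codRestrict_apply, br11]
        rfl
      · rintro ⟨z, hz⟩
        obtain ⟨x, rfl⟩ := mem_Lm1.1 hz
        exact ⟨x, fun w => rfl, fun w => rfl⟩
    rw [bOdd, ← h4]
    omega
  rw [hθ, e0, e1]

end Pool.Agent.Helper54.SKW
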